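import Pool.Agent.Lib.MP_727445_co.Small

namespace Pool.Agent.Lib.MP_727445_co

/-- a 16-element sequence found by computer (a ternary analogue of a Conway-Guy sequence) -/
def cert : List ℕ := [5126710, 6850580, 7427768, 7623608, 7690065, 7712515, 7720209, 7722847,
  7723740, 7724056, 7724166, 7724207, 7724221, 7724227, 7724228, 7724230]

set_option maxRecDepth 100000 in
lemma cert_chk : chk cert 1 = true := by decide +kernel

lemma g_sixteen : g 3 16 ≤ 7724230 := by
  have h := g_le (adm_of_list cert cert_chk (by decide) (by decide))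
  exact h

lemma g_upper16 (k : ℕ) (hk : 16 ≤ k) : g 3 k ≤ 7724230 * 3 ^ (k - 16) := by
  obtain ⟨m, rfl⟩ := Nat.exists_eq_add_of_le hk
  rw [Nat.add_sub_cancel_left]
  calc g 3 (16 + m) ≤ g 3 16 * 3 ^ m := g_add_le (by norm_num) m
    _ ≤ 7724230 * 3 ^ m := Nat.mul_le_mul_right _ g_sixteen

lemma g_upper3 (k : ℕ) (hk : 3 ≤ k) : g 3 k ≤ 8 * 3 ^ (k - 3) := by
  obtain ⟨m, rfl⟩ := Nat.exists_eq_add_of_le hk
  rw [Nat.add_sub_cancel_left]
  calc g 3 (3 + m) ≤ g 3 3 * 3 ^ m := g_add_le (by norm_num) m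
    _ = 8 * 3 ^ m := by rw [g_three]

lemma g_lt (k : ℕ) (hk : 3 ≤ k) : g 3 k < 3 ^ (k - 1) := by
  have h := g_upper3 k hk
  obtain ⟨m, rfl⟩ := Nat.exists_eq_add_of_le hk
  rw [Nat.add_sub_cancel_left] at h
  have e : 3 + m - 1 = 2 + m := by omega
  rw [e, pow_add]
  have : 0 < 3 ^ m := by positivity
  omega

end Pool.Agent.Lib.MP_727445_co
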