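import Mathlib

namespace Pool.Agent.Lib.MP_727445_co

/-- The set of values of the nonempty subset sums of `b 1, ..., b k`
(a set of integers; repeated values are counted once). -/
def SubsetSums (b : ℕ → ℕ) (k : ℕ) : Set ℤ :=
  {s | ∃ I : Finset ℕ, I.Nonempty ∧ I ⊆ Finset.Icc 1 k ∧ s = ∑ i ∈ I, (b i : ℤ)}

/-- `S` contains an `r`-term arithmetic progression `x, x + d, ..., x + (r - 1) d`
with nonzero difference `d`. -/
def HasAP (r : ℕ) (S : Set ℤ) : Prop :=
  ∃ x d : ℤ, d ≠ 0 ∧ ∀ j : ℕ, j < r → x + (j : ℤ) * d ∈ S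

/-- `b 1 < b 2 < ... < b k` are positive integers whose set of nonempty subset sums
contains no `r`-term arithmetic progression. -/
def Admissible (r k : ℕ) (b : ℕ → ℕ) : Prop :=
  (∀ i ∈ Finset.Icc 1 k, 0 < b i) ∧
  (∀ i ∈ Finset.Icc 1 k, ∀ j ∈ Finset.Icc 1 k, i < j → b i < b j) ∧
  ¬ HasAP r (SubsetSums b k)

/-- `g r k` is the minimum of the last term `b k` over all admissible sequences
`b 1 < ... < b k`. -/
noncomputable def g (r k : ℕ) : ℕ :=
  sInf {m : ℕ | ∃ b : ℕ → ℕ, Admissible r k b ∧ b k = m}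

end Pool.Agent.Lib.MP_727445_co
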