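import Pool.Agent.Lib.MP_727445_co.Defs

namespace Pool.Agent.Lib.MP_727445_co

open Finset

/-- no nontrivial relation with coefficients in `{-2,...,2}` -/
def TD (k : ℕ) (b : ℕ → ℕ) : Prop :=
  ∀ e : ℕ → ℤ, (∀ i ∈ Icc 1 k, |e i| ≤ 2) → ∑ i ∈ Icc 1 k, e i * (b i : ℤ) = 0 →
    ∀ i ∈ Icc 1 k, e i = 0

lemma sum_ind {k : ℕ} {I : Finset ℕ} (hI : I ⊆ Icc 1 k) (b : ℕ → ℕ) :
    ∑ i ∈ Icc 1 k, (if i ∈ I then (1 : ℤ) else 0) * (b i : ℤ) = ∑ i ∈ I, (b i : ℤ) := by
  simp only [ite_mul, one_mul, zero_mul]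
  rw [← Finset.sum_filter]
  congr 1
  ext i
  simp only [mem_filter]
  constructor
  · intro h; exact h.2
  · intro h; exact ⟨hI h, h⟩

lemma noAP_of_TD {k : ℕ} {b : ℕ → ℕ} (h : TD k b) : ¬ HasAP 3 (SubsetSums b k) := by
  rintro ⟨x, d, hd, hx⟩
  obtain ⟨I0, -, hI0, h0⟩ := hx 0 (by norm_num)
  obtain ⟨I1, -, hI1, h1⟩ := hx 1 (by norm_num)
  obtain ⟨I2, -, hI2, h2⟩ := hx 2 (by norm_num)
  have key := h (fun i => (if i ∈ I0 then (1 : ℤ) else 0) + (if i ∈ I2 then (1 : ℤ) else 0)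
    - 2 * (if i ∈ I1 then (1 : ℤ) else 0)) (by
      intro i _
      split_ifs <;> simp) (by
      have e0 := sum_ind hI0 b
      have e1 := sum_ind hI1 b
      have e2 := sum_ind hI2 b
      have : ∀ i ∈ Icc 1 k, ((if i ∈ I0 then (1 : ℤ) else 0) + (if i ∈ I2 then (1 : ℤ) else 0)
          - 2 * (if i ∈ I1 then (1 : ℤ) else 0)) * (b i : ℤ)
          = (if i ∈ I0 then (1 : ℤ) else 0) * (b i : ℤ) + (if i ∈ I2 then (1 : ℤ) else 0) * (b i : ℤ)
          - 2 * ((if i ∈ I1 then (1 : ℤ) else 0) * (b i : ℤ)) := by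
        intro i _; ring
      rw [Finset.sum_congr rfl this, Finset.sum_sub_distrib, Finset.sum_add_distrib,
        ← Finset.mul_sum, e0, e1, e2, ← h0, ← h1, ← h2]
      push_cast
      ring)
  have hEq : I0 = I1 := by
    ext i
    constructor
    · intro hi
      have := key i (hI0 hi)
      by_contra hc
      simp only [hi, hc, if_true, if_false] at this
      split_ifs at this <;> omega
    · intro hi
      have := key i (hI1 hi)
      by_contra hc
      simp only [hi, hc, if_true, if_false] at this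
      split_ifs at this <;> omega
  have : x + ((0 : ℕ) : ℤ) * d = x + ((1 : ℕ) : ℤ) * d := by rw [h0, h1, hEq]
  push_cast at this
  apply hd
  linarith

/-- the main construction of a progression -/
lemma core {k : ℕ} {b : ℕ → ℕ} (hpos : ∀ i ∈ Icc 1 k, 0 < b i) (e : ℕ → ℤ)
    (he : ∀ i ∈ Icc 1 k, |e i| ≤ 2) (hs : ∑ i ∈ Icc 1 k, e i * (b i : ℤ) = 0)
    {i1 : ℕ} (hi1 : i1 ∈ Icc 1 k) (hodd : e i1 = 1 ∨ e i1 = -1)
    {j : ℕ} (hj : j ∈ Icc 1 k) (hj2 : e j = 0 ∨ e j = 2) :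
    HasAP 3 (SubsetSums b k) := by
  set A : Finset ℕ := (Icc 1 k).filter (fun i => e i ≠ -2) with hA
  set B : Finset ℕ := (Icc 1 k).filter (fun i => e i ≤ 0) with hB
  set C : Finset ℕ := (Icc 1 k).filter (fun i => e i = 0 ∨ e i = 2) with hC
  have hAs : A ⊆ Icc 1 k := filter_subset _ _
  have hBs : B ⊆ Icc 1 k := filter_subset _ _
  have hCs : C ⊆ Icc 1 k := filter_subset _ _
  have hAn : A.Nonempty := ⟨i1, by rw [hA, mem_filter]; refine ⟨hi1, ?_⟩; rcases hodd with h | h <;> rw [h] <;> norm_num⟩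
  have hCn : C.Nonempty := ⟨j, by rw [hC, mem_filter]; exact ⟨hj, hj2⟩⟩
  have hBn : B.Nonempty := by
    by_contra hc
    rw [not_nonempty_iff_eq_empty] at hc
    have hall : ∀ i ∈ Icc 1 k, 0 < e i := by
      intro i hi
      by_contra h'
      have : i ∈ B := by rw [hB, mem_filter]; exact ⟨hi, by omega⟩
      rw [hc] at this
      simp at this
    have : 0 < ∑ i ∈ Icc 1 k, e i * (b i : ℤ) := by
      apply Finset.sum_pos
      · intro i hi
        have := hall i hi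
        have h2 := hpos i hi
        positivity
      · exact ⟨i1, hi1⟩
    omega
  have hrel : ∀ i ∈ Icc 1 k, e i * (b i : ℤ) =
      (if i ∈ A then (1 : ℤ) else 0) * (b i : ℤ) + (if i ∈ C then (1 : ℤ) else 0) * (b i : ℤ)
      - 2 * ((if i ∈ B then (1 : ℤ) else 0) * (b i : ℤ)) := by
    intro i hi
    have h2 := he i hi
    have hiA : i ∈ A ↔ e i ≠ -2 := by rw [hA, mem_filter]; exact ⟨fun h => h.2, fun h => ⟨hi, h⟩⟩
    have hiB : i ∈ B ↔ e i ≤ 0 := by rw [hB, mem_filter]; exact ⟨fun h => h.2, fun h => ⟨hi, h⟩⟩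
    have hiC : i ∈ C ↔ (e i = 0 ∨ e i = 2) := by rw [hC, mem_filter]; exact ⟨fun h => h.2, fun h => ⟨hi, h⟩⟩
    simp only [hiA, hiB, hiC]
    rw [abs_le] at h2
    obtain ⟨h2a, h2b⟩ := h2
    have hcase : e i = -2 ∨ e i = -1 ∨ e i = 0 ∨ e i = 1 ∨ e i = 2 := by omega
    rcases hcase with h | h | h | h | h <;> rw [h] <;> norm_num <;> ring
  have hsum : (∑ i ∈ A, (b i : ℤ)) + (∑ i ∈ C, (b i : ℤ)) = 2 * ∑ i ∈ B, (b i : ℤ) := by
    rw [Finset.sum_congr rfl hrel, Finset.sum_sub_distrib, Finset.sum_add_distrib,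
        ← Finset.mul_sum, sum_ind hAs, sum_ind hBs, sum_ind hCs] at hs
    linarith
  have hCA : C ⊂ A := by
    rw [Finset.ssubset_iff_of_subset]
    · refine ⟨i1, ?_, ?_⟩
      · rw [hA, mem_filter]; refine ⟨hi1, ?_⟩; rcases hodd with h | h <;> rw [h] <;> norm_num
      · rw [hC, mem_filter]; rintro ⟨-, h'⟩; rcases hodd with h | h <;> rw [h] at h' <;> norm_num at h'
    · intro i hi
      rw [hC, mem_filter] at hi
      rw [hA, mem_filter]
      refine ⟨hi.1, ?_⟩
      rcases hi.2 with h | h <;> rw [h] <;> norm_num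
  have hlt : ∑ i ∈ C, (b i : ℤ) < ∑ i ∈ A, (b i : ℤ) := by
    apply Finset.sum_lt_sum_of_subset hCA.1 (i := i1)
    · rw [hA, mem_filter]; refine ⟨hi1, ?_⟩; rcases hodd with h | h <;> rw [h] <;> norm_num
    · rw [hC, mem_filter]; rintro ⟨-, h'⟩; rcases hodd with h | h <;> rw [h] at h' <;> norm_num at h'
    · have := hpos i1 hi1; exact_mod_cast this
    · intro i _ _; positivity
  refine ⟨∑ i ∈ C, (b i : ℤ), ∑ i ∈ B, (b i : ℤ) - ∑ i ∈ C, (b i : ℤ), by omega, ?_⟩
  intro l hl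
  interval_cases l
  · exact ⟨C, hCn, hCs, by push_cast; ring⟩
  · exact ⟨B, hBn, hBs, by push_cast; ring⟩
  · refine ⟨A, hAn, hAs, ?_⟩
    push_cast
    linarith

lemma TD_of_noAP {k : ℕ} {b : ℕ → ℕ} (hpos : ∀ i ∈ Icc 1 k, 0 < b i)
    (hmono : ∀ i ∈ Icc 1 k, ∀ j ∈ Icc 1 k, i < j → b i < b j)
    (hno : ¬ HasAP 3 (SubsetSums b k)) : TD k b := by
  -- first: a relation with an odd entry is impossible
  have hodd : ∀ e : ℕ → ℤ, (∀ i ∈ Icc 1 k, |e i| ≤ 2) → ∑ i ∈ Icc 1 k, e i * (b i : ℤ) = 0 →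
      ∀ i ∈ Icc 1 k, ¬ (e i = 1 ∨ e i = -1) := by
    intro e he hs i1 hi1 h1
    by_cases hex : ∃ j ∈ Icc 1 k, e j = 0 ∨ e j = 2
    · obtain ⟨j, hj, hj2⟩ := hex
      exact hno (core hpos e he hs hi1 h1 hj hj2)
    by_cases hex2 : ∃ j ∈ Icc 1 k, e j = -2
    · obtain ⟨j, hj, hj2⟩ := hex2
      refine hno (core hpos (fun i => - e i) ?_ ?_ hi1 ?_ hj ?_)
      · intro i hi; simp only [abs_neg]; exact he i hi
      · simp only [neg_mul, Finset.sum_neg_distrib, hs, neg_zero]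
      · rcases h1 with h | h
        · right; rw [h]
        · left; rw [h]; norm_num
      · right; rw [hj2]; norm_num
    push Not at hex hex2
    have hpm : ∀ i ∈ Icc 1 k, e i = 1 ∨ e i = -1 := by
      intro i hi
      have h2 := he i hi
      rw [abs_le] at h2
      have h3 := hex i hi
      have h4 := hex2 i hi
      omega
    have hk1 : 1 ≤ k := by rw [mem_Icc] at hi1; omega
    have hk : 2 ≤ k := by
      by_contra hc
      have hk' : k = 1 := by omega
      subst hk'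
      simp only [Icc_self, sum_singleton] at hs
      have h1' := hpm 1 (by simp)
      have hb1 := hpos 1 (by simp)
      rcases h1' with h | h <;> rw [h] at hs <;> omega
    -- S = {1}
    have m1 : (1 : ℕ) ∈ Icc 1 k := by rw [mem_Icc]; omega
    have m2 : (2 : ℕ) ∈ Icc 1 k := by rw [mem_Icc]; omega
    set B : Finset ℕ := (Icc 1 k).filter (fun i => e i = -1) with hB
    set C : Finset ℕ := (Icc 1 k).erase 1 with hC
    have hBs : B ⊆ Icc 1 k := filter_subset _ _
    have hCs : C ⊆ Icc 1 k := erase_subset _ _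
    have hBn : B.Nonempty := by
      by_contra hc
      rw [not_nonempty_iff_eq_empty] at hc
      have hall : ∀ i ∈ Icc 1 k, e i = 1 := by
        intro i hi
        rcases hpm i hi with h | h
        · exact h
        · have : i ∈ B := by rw [hB, mem_filter]; exact ⟨hi, h⟩
          rw [hc] at this
          simp at this
      have : 0 < ∑ i ∈ Icc 1 k, e i * (b i : ℤ) := by
        apply Finset.sum_pos
        · intro i hi
          rw [hall i hi]
          have h2 := hpos i hi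
          positivity
        · exact ⟨i1, hi1⟩
      omega
    have hrel : ∀ i ∈ Icc 1 k, e i * (b i : ℤ) =
        (b i : ℤ) - 2 * ((if i ∈ B then (1 : ℤ) else 0) * (b i : ℤ)) := by
      intro i hi
      have hiB : i ∈ B ↔ e i = -1 := by rw [hB, mem_filter]; exact ⟨fun h => h.2, fun h => ⟨hi, h⟩⟩
      simp only [hiB]
      rcases hpm i hi with h | h <;> rw [h] <;> norm_num
      ring
    have hsum : ∑ i ∈ Icc 1 k, (b i : ℤ) = 2 * ∑ i ∈ B, (b i : ℤ) := by
      rw [Finset.sum_congr rfl hrel, Finset.sum_sub_distrib, ← Finset.mul_sum, sum_ind hBs] at hs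
      linarith
    have hsplit : (b 1 : ℤ) + ∑ i ∈ C, (b i : ℤ) = ∑ i ∈ Icc 1 k, (b i : ℤ) :=
      Finset.add_sum_erase _ (fun i => (b i : ℤ)) m1
    have hC2 : (b 2 : ℤ) ≤ ∑ i ∈ C, (b i : ℤ) := by
      apply Finset.single_le_sum (f := fun i => (b i : ℤ))
      · intro i _; positivity
      · rw [hC, mem_erase]; exact ⟨by norm_num, m2⟩
    have h12 : (b 1 : ℤ) < b 2 := by exact_mod_cast hmono 1 m1 2 m2 (by norm_num)
    apply hno
    refine ⟨(b 1 : ℤ), ∑ i ∈ B, (b i : ℤ) - b 1, by omega, ?_⟩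
    intro l hl
    interval_cases l
    · exact ⟨{1}, by simp, by simpa using m1, by simp⟩
    · exact ⟨B, hBn, hBs, by push_cast; ring⟩
    · refine ⟨C, ⟨2, ?_⟩, hCs, ?_⟩
      · rw [hC, mem_erase]; exact ⟨by norm_num, m2⟩
      · push_cast; linarith
  intro e he hs
  have hev : ∀ i ∈ Icc 1 k, e i = 0 ∨ e i = 2 ∨ e i = -2 := by
    intro i hi
    have h1 := hodd e he hs i hi
    have h2 := he i hi
    rw [abs_le] at h2
    omega
  have hhalf : ∀ i ∈ Icc 1 k, e i = 2 * (e i / 2) := by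
    intro i hi
    rcases hev i hi with h | h | h <;> rw [h] <;> norm_num
  have hs2 : ∑ i ∈ Icc 1 k, (e i / 2) * (b i : ℤ) = 0 := by
    have : ∑ i ∈ Icc 1 k, e i * (b i : ℤ) = 2 * ∑ i ∈ Icc 1 k, (e i / 2) * (b i : ℤ) := by
      rw [Finset.mul_sum]
      apply Finset.sum_congr rfl
      intro i hi
      conv_lhs => rw [hhalf i hi]
      ring
    rw [this] at hs
    omega
  have h3 := hodd (fun i => e i / 2) (by
    intro i hi
    rcases hev i hi with h | h | h <;> simp only [h] <;> norm_num) hs2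
  intro i hi
  have h4 := h3 i hi
  rcases hev i hi with h | h | h
  · exact h
  · exfalso; apply h4; left; simp only [h]; norm_num
  · exfalso; apply h4; right; simp only [h]; norm_num

lemma admissible_iff {k : ℕ} {b : ℕ → ℕ} :
    Admissible 3 k b ↔ (∀ i ∈ Icc 1 k, 0 < b i) ∧
      (∀ i ∈ Icc 1 k, ∀ j ∈ Icc 1 k, i < j → b i < b j) ∧ TD k b := by
  constructor
  · rintro ⟨h1, h2, h3⟩
    exact ⟨h1, h2, TD_of_noAP h1 h2 h3⟩
  · rintro ⟨h1, h2, h3⟩
    exact ⟨h1, h2, noAP_of_TD h3⟩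

end Pool.Agent.Lib.MP_727445_co
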