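import Pool.Agent.Lib.MP_727445_co.Iso

namespace Pool.Agent.Lib.MP_727445_co

open Finset

/-- the multiset of all sums with coefficients `-1, 0, 1` -/
def TT : List ℕ → Multiset ℤ
  | [] => {0}
  | b :: L => (TT L).map (fun s => s + (b : ℤ)) + (TT L + (TT L).map (fun s => s - (b : ℤ)))

lemma card_TT (L : List ℕ) : (TT L).card = 3 ^ L.length := by
  induction L with
  | nil => simp [TT]
  | cons b L ih =>
    simp only [TT, Multiset.card_add, Multiset.card_map, ih, List.length_cons]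
    ring

lemma HH_eq (lam : ℝ) (M : ℝ) (L : List ℕ) (x : ℝ) :
    HH lam (L.map (fun b : ℕ => (b : ℝ) / M)) x = ((TT L).map (fun s : ℤ => lgs lam (x - (s : ℝ) / M))).sum := by
  induction L generalizing x with
  | nil => simp [HH, TT]
  | cons b L ih =>
    simp only [List.map_cons, HH, TT, Multiset.map_add, Multiset.sum_add, Multiset.map_map,
      Function.comp_def]
    rw [ih, ih, ih]
    have e1 : ∀ s : ℤ, x - (b : ℝ) / M - (s : ℝ) / M = x - ((s + (b : ℤ) : ℤ) : ℝ) / M := by
      intro s; push_cast; ring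
    have e2 : ∀ s : ℤ, x + (b : ℝ) / M - (s : ℝ) / M = x - ((s - (b : ℤ) : ℤ) : ℝ) / M := by
      intro s; push_cast; ring
    simp only [e1, e2]
    ring

/-- no relation, list form -/
def TDL (L : List ℕ) : Prop :=
  ∀ e : ℕ → ℤ, (∀ i < L.length, |e i| ≤ 2) → ∑ i ∈ range L.length, e i * ((L.getD i 0 : ℕ) : ℤ) = 0 →
    ∀ i < L.length, e i = 0

lemma mem_TT {L : List ℕ} {s : ℤ} (h : s ∈ TT L) :
    ∃ e : ℕ → ℤ, (∀ i, |e i| ≤ 1) ∧ s = ∑ i ∈ range L.length, e i * ((L.getD i 0 : ℕ) : ℤ) := by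
  induction L generalizing s with
  | nil => exact ⟨fun _ => 0, by simp, by simpa [TT] using h⟩
  | cons b L ih =>
    simp only [TT, Multiset.mem_add, Multiset.mem_map] at h
    have key : ∀ (t : ℤ), t ∈ TT L → ∀ c : ℤ, |c| ≤ 1 → ∃ e : ℕ → ℤ, (∀ i, |e i| ≤ 1) ∧
        t + c * (b : ℤ) = ∑ i ∈ range (b :: L).length, e i * (((b :: L).getD i 0 : ℕ) : ℤ) := by
      intro t ht c hc
      obtain ⟨e, he, hs⟩ := ih ht
      refine ⟨fun i => match i with | 0 => c | i + 1 => e i, ?_, ?_⟩
      · intro i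
        match i with
        | 0 => exact hc
        | i + 1 => exact he i
      · rw [List.length_cons, Finset.sum_range_succ']
        simp only [List.getD_cons_succ, List.getD_cons_zero]
        rw [← hs]
    rcases h with ⟨t, ht, rfl⟩ | h | ⟨t, ht, rfl⟩
    · have := key t ht 1 (by norm_num)
      simpa only [one_mul] using this
    · have := key s h 0 (by norm_num)
      simpa only [zero_mul, add_zero] using this
    · have := key t ht (-1) (by norm_num)
      simpa only [neg_mul, one_mul, ← sub_eq_add_neg] using this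

lemma TDL_tail {b : ℕ} {L : List ℕ} (h : TDL (b :: L)) : TDL L := by
  intro e he hs i hi
  have := h (fun i => match i with | 0 => 0 | i + 1 => e i) (by
    intro i hi
    match i with
    | 0 => simp
    | i + 1 => exact he i (by simpa using hi)) (by
    rw [List.length_cons, Finset.sum_range_succ']
    simp only [List.getD_cons_succ, List.getD_cons_zero, zero_mul, add_zero]
    exact hs) (i + 1) (by simpa using hi)
  exact this

lemma TDL_disj {b : ℕ} {L : List ℕ} (h : TDL (b :: L)) {s s' c : ℤ} (hs : s ∈ TT L) (hs' : s' ∈ TT L)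
    (hc : |c| ≤ 2) (heq : s + c * (b : ℤ) = s') : c = 0 := by
  obtain ⟨e, he, hes⟩ := mem_TT hs
  obtain ⟨e', he', hes'⟩ := mem_TT hs'
  have := h (fun i => match i with | 0 => c | i + 1 => e i - e' i) (by
    intro i hi
    match i with
    | 0 => exact hc
    | i + 1 =>
      have h1 := he i
      have h2 := he' i
      rw [abs_le] at h1 h2
      show |e i - e' i| ≤ 2
      rw [abs_le]
      omega) (by
    rw [List.length_cons, Finset.sum_range_succ']
    simp only [List.getD_cons_succ, List.getD_cons_zero, sub_mul]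
    rw [Finset.sum_sub_distrib, ← hes, ← hes']
    omega) 0 (by simp)
  exact this

lemma nodup_TT {L : List ℕ} (h : TDL L) : (TT L).Nodup := by
  induction L with
  | nil => simp [TT]
  | cons b L ih =>
    have ihn := ih (TDL_tail h)
    simp only [TT]
    rw [Multiset.nodup_add, Multiset.nodup_add]
    refine ⟨?_, ⟨ihn, ?_, ?_⟩, ?_⟩
    · exact ihn.map (fun a b h => by simpa using h)
    · exact ihn.map (fun a b h => by simpa using h)
    · rw [Multiset.disjoint_left]
      intro s hs hs'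
      rw [Multiset.mem_map] at hs'
      obtain ⟨t, ht, hts⟩ := hs'
      have := TDL_disj h (s := t) (s' := s) (c := -1) ht hs (by norm_num) (by rw [← hts]; ring)
      norm_num at this
    · rw [Multiset.disjoint_left]
      intro s hs hs'
      rw [Multiset.mem_map] at hs
      obtain ⟨t, ht, hts⟩ := hs
      rw [Multiset.mem_add, Multiset.mem_map] at hs'
      rcases hs' with hs' | ⟨u, hu, hus⟩
      · have := TDL_disj h (s := t) (s' := s) (c := 1) ht hs' (by norm_num) (by rw [← hts]; ring)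
        norm_num at this
      · have := TDL_disj h (s := t) (s' := u) (c := 2) ht hu (by norm_num) (by linarith)
        norm_num at this

/-- telescoping bound -/
lemma tele (φ : ℤ → ℝ) (hanti : ∀ s, φ (s + 1) ≤ φ s) (h0 : ∀ s, 0 ≤ φ s) (h1 : ∀ s, φ s ≤ 1)
    (M : ℕ) (T : Finset ℤ) : ∑ s ∈ T, (φ s - φ (s + M)) ≤ M := by
  have hM : ∀ (m : ℕ) (s : ℤ), φ s - φ (s + m) = ∑ j ∈ range m, (φ (s + j) - φ (s + j + 1)) := by
    intro m s
    induction m with
    | zero => simp
    | succ m ih =>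
      rw [Finset.sum_range_succ, ← ih]
      push_cast
      rw [← add_assoc]
      ring
  have hnn : ∀ s, 0 ≤ φ s - φ (s + M) := by
    intro s
    rw [hM]
    apply Finset.sum_nonneg
    intro j _
    linarith [hanti (s + j)]
  -- enclose T
  obtain ⟨K, hK⟩ : ∃ K : ℕ, ∀ s ∈ T, |s| ≤ (K : ℤ) := by
    refine ⟨(∑ s ∈ T, |s|).toNat, ?_⟩
    intro s hs
    have hh : |s| ≤ ∑ s ∈ T, |s| := Finset.single_le_sum (f := fun s => |s|) (fun i _ => abs_nonneg i) hs
    have : 0 ≤ ∑ s ∈ T, |s| := Finset.sum_nonneg (fun i _ => abs_nonneg i)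
    omega
  set J : Finset ℤ := (range (2 * K + 1)).image (fun i : ℕ => (i : ℤ) - K) with hJ
  have hTJ : T ⊆ J := by
    intro s hs
    have := hK s hs
    rw [abs_le] at this
    rw [hJ, mem_image]
    exact ⟨(s + K).toNat, by rw [mem_range]; omega, by omega⟩
  calc ∑ s ∈ T, (φ s - φ (s + M)) ≤ ∑ s ∈ J, (φ s - φ (s + M)) :=
        Finset.sum_le_sum_of_subset_of_nonneg hTJ (fun s _ _ => hnn s)
    _ = ∑ i ∈ range (2 * K + 1), (φ ((i : ℤ) - K) - φ ((i : ℤ) - K + M)) := by
        rw [hJ, Finset.sum_image]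
        intro a _ b _ h
        simpa using h
    _ = ∑ i ∈ range (2 * K + 1), ∑ j ∈ range M, (φ ((i : ℤ) - K + j) - φ ((i : ℤ) - K + j + 1)) := by
        apply Finset.sum_congr rfl
        intro i _
        rw [hM]
    _ = ∑ j ∈ range M, ∑ i ∈ range (2 * K + 1), (φ ((i : ℤ) - K + j) - φ ((i : ℤ) - K + j + 1)) :=
        Finset.sum_comm
    _ ≤ ∑ j ∈ range M, (1 : ℝ) := by
        apply Finset.sum_le_sum
        intro j _
        have ht : ∀ m : ℕ, ∑ i ∈ range m, (φ ((i : ℤ) - K + j) - φ ((i : ℤ) - K + j + 1)) =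
            φ (-K + j) - φ ((m : ℤ) - K + j) := by
          intro m
          induction m with
          | zero => simp
          | succ m ih =>
            rw [Finset.sum_range_succ, ih]
            push_cast
            rw [show (m : ℤ) + 1 - K + j = (m : ℤ) - K + j + 1 by ring]
            ring
        rw [ht]
        linarith [h1 (-K + j), h0 (((2 * K + 1 : ℕ) : ℤ) - K + j)]
    _ = M := by simp

/-- the linear functional `p ↦ ∑ p_j lgs (x - j)` -/
noncomputable def phi (lam : ℝ) (p : Polynomial ℕ) (x : ℝ) : ℝ :=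
  p.sum (fun j c => (c : ℝ) * lgs lam (x - j))

lemma phi_add (lam : ℝ) (p q : Polynomial ℕ) (x : ℝ) :
    phi lam (p + q) x = phi lam p x + phi lam q x := by
  unfold phi
  apply Polynomial.sum_add_index
  · intro i; simp
  · intro i a b; push_cast; ring

lemma phi_mul_X (lam : ℝ) (p : Polynomial ℕ) (x : ℝ) :
    phi lam (p * Polynomial.X) x = phi lam p (x - 1) := by
  induction p using Polynomial.induction_on' with
  | add p q hp hq => rw [add_mul, phi_add, phi_add, hp, hq]
  | monomial j c =>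
    rw [Polynomial.monomial_mul_X]
    unfold phi
    rw [Polynomial.sum_monomial_index, Polynomial.sum_monomial_index]
    · congr 2; push_cast; ring
    · simp
    · simp

lemma FF_eq (lam : ℝ) (n : ℕ) (x : ℝ) :
    FF lam n x = phi lam ((1 + Polynomial.X + Polynomial.X ^ 2) ^ n) (x + n) := by
  induction n generalizing x with
  | zero =>
    simp only [FF, pow_zero]
    unfold phi
    rw [← Polynomial.C_1, Polynomial.sum_C_index]
    · simp
    · simp
  | succ n ih =>
    simp only [FF]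
    rw [ih, ih, ih]
    have hP : (1 + Polynomial.X + Polynomial.X ^ 2 : Polynomial ℕ) ^ (n + 1) =
        (1 + Polynomial.X + Polynomial.X ^ 2) ^ n + (1 + Polynomial.X + Polynomial.X ^ 2) ^ n * Polynomial.X
        + (1 + Polynomial.X + Polynomial.X ^ 2) ^ n * Polynomial.X * Polynomial.X := by ring
    rw [hP, phi_add, phi_add, phi_mul_X, phi_mul_X, phi_mul_X]
    push_cast
    rw [show x + 1 + (n : ℝ) = x + (n + 1) by ring, show x + (n : ℝ) = x + (n + 1) - 1 by ring,
      show x - 1 + (n : ℝ) = x + (n + 1) - 1 - 1 by ring]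
    ring

lemma FF_window {lam : ℝ} (hl : 0 < lam) (n : ℕ) :
    (((1 + Polynomial.X + Polynomial.X ^ 2 : Polynomial ℕ) ^ n).coeff n : ℝ) *
      (lgs lam (1 / 2) - lgs lam (-(1 / 2))) ≤ FF lam n (1 / 2) - FF lam n (-(1 / 2)) := by
  rw [FF_eq, FF_eq]
  set P : Polynomial ℕ := (1 + Polynomial.X + Polynomial.X ^ 2) ^ n
  unfold phi
  rw [Polynomial.sum_def, Polynomial.sum_def, ← Finset.sum_sub_distrib]
  have hmono := (lgs_strictMono hl).monotone
  have hnn : ∀ j : ℕ, 0 ≤ (P.coeff j : ℝ) * lgs lam (1 / 2 + n - j) - (P.coeff j : ℝ) * lgs lam (-(1 / 2) + n - j) := by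
    intro j
    rw [← mul_sub]
    apply mul_nonneg (by positivity)
    rw [sub_nonneg]
    apply hmono
    linarith
  by_cases hn : n ∈ P.support
  · have := Finset.single_le_sum (f := fun j : ℕ => (P.coeff j : ℝ) * lgs lam (1 / 2 + n - j) - (P.coeff j : ℝ) * lgs lam (-(1 / 2) + n - j))
      (fun j _ => hnn j) hn
    refine le_trans (le_of_eq ?_) this
    rw [mul_sub]
    congr 3 <;> ring
  · rw [Polynomial.notMem_support_iff] at hn
    rw [hn]
    simp only [Nat.cast_zero, zero_mul]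
    exact Finset.sum_nonneg (fun j _ => hnn j)

/-- main lower bound, list form -/
lemma trinomial_le {L : List ℕ} (h : TDL L) {M : ℕ} (hM : ∀ b ∈ L, b ≤ M) (hM0 : 0 < M) :
    ((1 + Polynomial.X + Polynomial.X ^ 2 : Polynomial ℕ) ^ L.length).coeff L.length ≤ M := by
  have hMr : (0 : ℝ) < M := by exact_mod_cast hM0
  -- for every lam
  have main : ∀ lam : ℝ, 0 < lam →
      (((1 + Polynomial.X + Polynomial.X ^ 2 : Polynomial ℕ) ^ L.length).coeff L.length : ℝ) *
      (lgs lam (1 / 2) - lgs lam (-(1 / 2))) ≤ M := by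
    intro lam hl
    have w := window hl (L.map (fun b : ℕ => (b : ℝ) / M)) (by
      intro c hc
      rw [List.mem_map] at hc
      obtain ⟨b, hb, rfl⟩ := hc
      constructor
      · positivity
      · rw [div_le_one hMr]; exact_mod_cast hM b hb)
    rw [List.length_map, HH_eq, HH_eq] at w
    have hnd := nodup_TT h
    have e1 : ∀ x : ℝ, ((TT L).map (fun s : ℤ => lgs lam (x - (s : ℝ) / M))).sum =
        ∑ s ∈ (⟨TT L, hnd⟩ : Finset ℤ), lgs lam (x - (s : ℝ) / M) := by
      intro x; rfl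
    rw [e1, e1, ← Finset.sum_sub_distrib] at w
    have t := tele (fun s : ℤ => lgs lam (1 / 2 - (s : ℝ) / M)) (by
        intro s
        apply (lgs_strictMono hl).monotone
        push_cast
        have : (s : ℝ) / M ≤ ((s : ℝ) + 1) / M := by
          apply div_le_div_of_nonneg_right _ hMr.le
          linarith
        linarith) (fun s => (lgs_pos _ _).le) (fun s => (lgs_lt_one _ _).le) M ⟨TT L, hnd⟩
    have e2 : ∀ s : ℤ, lgs lam (1 / 2 - ((s + (M : ℤ) : ℤ) : ℝ) / M) = lgs lam (-(1 / 2) - (s : ℝ) / M) := by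
      intro s
      congr 1
      push_cast
      field_simp
      ring
    simp only [e2] at t
    exact (FF_window hl L.length).trans (w.trans t)
  -- conclude
  by_contra hc
  push Not at hc
  set c := ((1 + Polynomial.X + Polynomial.X ^ 2 : Polynomial ℕ) ^ L.length).coeff L.length
  have hc' : (M : ℝ) + 1 ≤ c := by exact_mod_cast hc
  have hlog : 0 < Real.log (2 * M + 2) := Real.log_pos (by linarith)
  have m := main (2 * Real.log (2 * M + 2)) (by linarith)
  rw [lgs_sub] at m
  have e3 : Real.exp (2 * Real.log (2 * M + 2) * (1 / 2)) = 2 * M + 2 := by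
    rw [show 2 * Real.log (2 * M + 2) * (1 / 2) = Real.log (2 * M + 2) by ring]
    exact Real.exp_log (by linarith)
  have e4 : Real.exp (2 * Real.log (2 * M + 2) * (-(1 / 2))) = (2 * (M : ℝ) + 2)⁻¹ := by
    rw [show 2 * Real.log (2 * M + 2) * (-(1 / 2)) = -Real.log (2 * M + 2) by ring, Real.exp_neg]
    rw [Real.exp_log (by linarith)]
  rw [e3, e4] at m
  have hE : (0 : ℝ) < 2 * M + 2 := by linarith
  have e5 : ((2 * (M : ℝ) + 2) - (2 * (M : ℝ) + 2)⁻¹) / ((1 + (2 * (M : ℝ) + 2)) * (1 + (2 * (M : ℝ) + 2)⁻¹))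
      = (2 * M + 1) / (2 * M + 3) := by
    field_simp
    ring
  rw [e5] at m
  rw [mul_div_assoc', div_le_iff₀ (by linarith)] at m
  nlinarith

/-! ### second moment -/

lemma sq_TT (L : List ℕ) : 3 * ((TT L).map (fun s => s ^ 2)).sum =
    2 * 3 ^ L.length * ((L.map (fun b : ℕ => (b : ℤ) ^ 2)).sum) := by
  induction L with
  | nil => simp [TT]
  | cons b L ih =>
    simp only [TT, Multiset.map_add, Multiset.sum_add, Multiset.map_map, Function.comp_def,
      List.length_cons, List.map_cons, List.sum_cons]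
    have h1 : ((TT L).map (fun s => (s + (b : ℤ)) ^ 2)).sum + ((TT L).map (fun s => (s - (b : ℤ)) ^ 2)).sum
        = 2 * ((TT L).map (fun s => s ^ 2)).sum + 2 * (b : ℤ) ^ 2 * 3 ^ L.length := by
      rw [← Multiset.sum_map_add]
      have : ∀ s : ℤ, (s + (b : ℤ)) ^ 2 + (s - (b : ℤ)) ^ 2 = 2 * s ^ 2 + 2 * (b : ℤ) ^ 2 := by
        intro s; ring
      simp only [this]
      rw [Multiset.sum_map_add, Multiset.sum_map_mul_left, Multiset.map_const', Multiset.sum_replicate,
        card_TT, nsmul_eq_mul]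
      push_cast
      ring
    have h2 : 3 * (((TT L).map (fun s => (s + (b : ℤ)) ^ 2)).sum + (((TT L).map (fun s => s ^ 2)).sum
        + ((TT L).map (fun s => (s - (b : ℤ)) ^ 2)).sum)) =
        3 * (3 * ((TT L).map (fun s => s ^ 2)).sum) + 6 * (b : ℤ) ^ 2 * 3 ^ L.length := by
      linear_combination 3 * h1
    rw [h2, ih]
    ring

lemma sum_sq_min (R : ℕ) (T : Finset ℤ) (hT : T.card = 2 * R + 1) :
    ∑ s ∈ Icc (-(R : ℤ)) R, s ^ 2 ≤ ∑ s ∈ T, s ^ 2 := by
  set J := Icc (-(R : ℤ)) R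
  have hJ : J.card = 2 * R + 1 := by
    rw [Int.card_Icc]; omega
  have hcard : (T \ J).card = (J \ T).card := by
    have h1 := Finset.card_sdiff_add_card_inter T J
    have h2 := Finset.card_sdiff_add_card_inter J T
    rw [Finset.inter_comm] at h2
    omega
  have h1 : ∑ s ∈ T, s ^ 2 = ∑ s ∈ T \ J, s ^ 2 + ∑ s ∈ T ∩ J, s ^ 2 := by
    rw [add_comm, Finset.sum_inter_add_sum_sdiff]
  have h2 : ∑ s ∈ J, s ^ 2 = ∑ s ∈ J \ T, s ^ 2 + ∑ s ∈ T ∩ J, s ^ 2 := by
    rw [Finset.inter_comm, add_comm, Finset.sum_inter_add_sum_sdiff]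
  rw [h1, h2]
  have h3 : ∑ s ∈ J \ T, s ^ 2 ≤ ∑ s ∈ J \ T, (R : ℤ) ^ 2 := by
    apply Finset.sum_le_sum
    intro s hs
    rw [mem_sdiff, mem_Icc] at hs
    exact sq_le_sq' hs.1.1 hs.1.2
  have h4 : ∑ s ∈ T \ J, (R : ℤ) ^ 2 ≤ ∑ s ∈ T \ J, s ^ 2 := by
    apply Finset.sum_le_sum
    intro s hs
    rw [mem_sdiff, mem_Icc] at hs
    have : s < -R ∨ (R : ℤ) < s := by
      by_contra hc
      push Not at hc
      exact hs.2 hc
    rcases this with h | h <;> nlinarith
  rw [Finset.sum_const, hcard, nsmul_eq_mul] at h4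
  rw [Finset.sum_const, nsmul_eq_mul] at h3
  linarith

lemma sum_sq_Icc (R : ℕ) : 12 * ∑ s ∈ Icc (-(R : ℤ)) R, s ^ 2 = (2 * R + 1) * ((2 * R + 1) ^ 2 - 1) := by
  induction R with
  | zero => simp
  | succ R ih =>
    have h1 : Icc (-((R + 1 : ℕ) : ℤ)) ((R + 1 : ℕ) : ℤ) =
        insert (-((R + 1 : ℕ) : ℤ)) (insert ((R + 1 : ℕ) : ℤ) (Icc (-(R : ℤ)) R)) := by
      ext s
      simp only [mem_Icc, mem_insert]
      push_cast
      omega
    rw [h1, Finset.sum_insert, Finset.sum_insert]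
    · push_cast
      linear_combination ih
    · simp only [mem_Icc]; push_cast; omega
    · simp only [mem_Icc, mem_insert]; push_cast; omega

lemma second_moment {L : List ℕ} (h : TDL L) :
    (9 : ℤ) ^ L.length - 1 ≤ 8 * (L.map (fun b : ℕ => (b : ℤ) ^ 2)).sum := by
  have hnd := nodup_TT h
  have hsq := sq_TT L
  obtain ⟨R, hR⟩ : ∃ R : ℕ, 3 ^ L.length = 2 * R + 1 := by
    have : Odd (3 ^ L.length) := Odd.pow (by decide)
    obtain ⟨R, hR⟩ := this
    exact ⟨R, hR⟩
  have hc := card_TT L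
  have h1 := sum_sq_min R ⟨TT L, hnd⟩ (by rw [← hR, ← hc]; rfl)
  have h2 := sum_sq_Icc R
  have h3 : ∑ s ∈ (⟨TT L, hnd⟩ : Finset ℤ), s ^ 2 = ((TT L).map (fun s => s ^ 2)).sum := rfl
  rw [h3] at h1
  have hRz : (3 : ℤ) ^ L.length = 2 * R + 1 := by exact_mod_cast hR
  have h9 : (9 : ℤ) ^ L.length = (3 ^ L.length) ^ 2 := by
    rw [← pow_mul, mul_comm, pow_mul]; norm_num
  set S := (L.map (fun b : ℕ => (b : ℤ) ^ 2)).sum
  set Q := ((TT L).map (fun s => s ^ 2)).sum
  set P := (3 : ℤ) ^ L.length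
  have hP : 0 < P := by positivity
  rw [h9]
  rw [← hRz] at h2
  -- 12 * sum = P (P^2 - 1) ≤ 12 Q, 3 Q = 2 P S
  have h5 : P * (P ^ 2 - 1) ≤ P * (8 * S) := by nlinarith
  exact le_of_mul_le_mul_left h5 hP

end Pool.Agent.Lib.MP_727445_co
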