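import Pool.Agent.Lib.MP_727445_co.Small
import Pool.Agent.Lib.MP_727445_co.Lower

/-!
Exhaustive search with pruning by the second moment inequality: exact values of `g_3(k)` and all
optimal sequences for `k ≤ 5`. The state is a bitmask `D` of differences of sums (offset 512).
-/

namespace Pool.Agent.Lib.MP_727445_co

open Finset

/-- the mask of differences after adding the element `b` -/
def nD (D b : ℕ) : ℕ :=
  Nat.lor (Nat.lor (Nat.lor D (Nat.shiftLeft D b)) (Nat.shiftRight D b))
    (Nat.lor (Nat.shiftLeft D (Nat.mul 2 b)) (Nat.shiftRight D (Nat.mul 2 b)))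

/-- the mask of candidates below `b` -/
def nA (D b : ℕ) : ℕ :=
  Nat.xor (Nat.land (Nat.shiftRight D 512) (Nat.sub (Nat.shiftLeft 1 b) 1))
    (Nat.sub (Nat.shiftLeft 1 b) 1)

/-- `2 b` is not a difference -/
def okD (D b : ℕ) : Bool :=
  Nat.beq (Nat.land (Nat.shiftRight D (Nat.add 512 (Nat.mul 2 b))) 1) 0

/-- all decreasing lists of `n` further elements; candidates in the mask `A`, differences in the
mask `D`; the sum of their squares must be at least `Q` (used for pruning only). -/
def srd : ℕ → ℕ → ℕ → ℕ → ℕ → List (List ℕ)
  | 0, n, _, _, _ => match n with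
    | 0 => [[]]
    | _ + 1 => []
  | f + 1, n, A, D, Q =>
    match n with
    | 0 => [[]]
    | n' + 1 =>
      match A with
      | 0 => []
      | A' + 1 =>
        match Nat.log2 (A' + 1) with
        | 0 => []
        | c + 1 =>
          match Nat.ble Q (Nat.mul (n' + 1) (Nat.mul (c + 1) (c + 1))) with
          | false => []
          | true =>
            match okD D (c + 1) with
            | false => srd f (n' + 1) (Nat.xor (A' + 1) (Nat.shiftLeft 1 (c + 1))) D Q
            | true =>
              match nD D (c + 1) with
              | 0 => []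
              | E + 1 =>
                (srd f n' (nA (E + 1) (c + 1)) (E + 1)
                  (Nat.sub Q (Nat.mul (c + 1) (c + 1)))).map ((c + 1) :: ·) ++
                srd f (n' + 1) (Nat.xor (A' + 1) (Nat.shiftLeft 1 (c + 1))) D Q

/-- no relation between the differences in `D` and the further elements `b 0, ..., b (n - 1)` -/
def RelD (D n : ℕ) (b : ℕ → ℕ) : Prop :=
  ∀ p : ℕ, D.testBit p = true → ∀ e : ℕ → ℤ, (∀ i, |e i| ≤ 2) →
    (p : ℤ) - 512 + ∑ i ∈ range n, e i * (b i : ℤ) = 0 → ∀ i < n, e i = 0

lemma RelD.step {D n : ℕ} {b : ℕ → ℕ} (h : RelD D (n + 1) b) {p : ℕ} {c : ℤ} (hc : |c| ≤ 2)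
    (hp : D.testBit p = true) {e : ℕ → ℤ} (he : ∀ i, |e i| ≤ 2)
    (hs : (p : ℤ) + c * (b n : ℤ) - 512 + ∑ i ∈ range n, e i * (b i : ℤ) = 0) :
    c = 0 ∧ ∀ i < n, e i = 0 := by
  have key := h p hp (fun i => if i = n then c else e i)
    (by intro i; split_ifs; exacts [hc, he i]) (by
      rw [Finset.sum_range_succ]
      have hsub : ∑ i ∈ range n, (if i = n then c else e i) * (b i : ℤ)
          = ∑ i ∈ range n, e i * (b i : ℤ) := by
        apply Finset.sum_congr rfl
        intro i hi
        rw [mem_range] at hi
        rw [if_neg (by omega)]
      rw [hsub]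
      simp only [if_true]
      linarith)
  constructor
  · have := key n (by omega)
    simpa using this
  · intro i hi
    have := key i (by omega)
    rwa [if_neg (by omega)] at this

lemma testBit_nD {D b t : ℕ} (h : (nD D b).testBit t = true) :
    ∃ p : ℕ, ∃ c : ℤ, D.testBit p = true ∧ |c| ≤ 2 ∧ (t : ℤ) = p + c * b := by
  change ((D ||| (D <<< b)) ||| (D >>> b) ||| ((D <<< (2 * b)) ||| (D >>> (2 * b)))).testBit t
    = true at h
  simp only [Nat.testBit_or, Nat.testBit_shiftLeft, Nat.testBit_shiftRight, Bool.or_eq_true,
    Bool.and_eq_true, decide_eq_true_eq] at h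
  rcases h with ((h | ⟨h1, h2⟩) | h) | (⟨h1, h2⟩ | h)
  · exact ⟨t, 0, h, by norm_num, by ring⟩
  · exact ⟨t - b, 1, h2, by norm_num, by push_cast [Nat.cast_sub h1]; ring⟩
  · exact ⟨b + t, -1, h, by norm_num, by push_cast; ring⟩
  · exact ⟨t - 2 * b, 2, h2, by norm_num, by push_cast [Nat.cast_sub h1]; ring⟩
  · exact ⟨2 * b + t, -2, h, by norm_num, by push_cast; ring⟩

lemma nD_ne_zero {D b : ℕ} (h : D ≠ 0) : nD D b ≠ 0 := by
  intro h0
  apply h
  apply Nat.eq_of_testBit_eq
  intro i
  have h1 : (nD D b).testBit i = false := by rw [h0]; simp
  change ((D ||| (D <<< b)) ||| (D >>> b) ||| ((D <<< (2 * b)) ||| (D >>> (2 * b)))).testBit i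
    = false at h1
  simp only [Nat.testBit_or, Bool.or_eq_false_iff] at h1
  rw [h1.1.1.1]
  simp

lemma RelD.next {D n : ℕ} {b : ℕ → ℕ} (h : RelD D (n + 1) b) : RelD (nD D (b n)) n b := by
  intro t ht e he hs
  obtain ⟨p, c, hp, hc, htp⟩ := testBit_nD ht
  exact (h.step hc hp he (by rw [← hs, htp])).2

lemma RelD.not_mem {D n : ℕ} {b : ℕ → ℕ} (h : RelD D (n + 1) b) {c : ℕ} (hc1 : 1 ≤ c)
    (hc2 : c ≤ 2) : D.testBit (512 + c * b n) = false := by
  by_contra hne
  rw [Bool.not_eq_false] at hne
  have := (h.step (c := -(c : ℤ)) (e := fun _ => 0) (by rw [abs_neg]; norm_cast) hne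
    (by intro i; norm_num) (by push_cast; simp)).1
  omega

lemma srd_complete : ∀ (f n A D Q : ℕ) (b : ℕ → ℕ), A < 2 ^ f → D ≠ 0 → (∀ i < n, 0 < b i) →
    (∀ m, n = m + 1 → A.testBit (b m) = true) →
    (∀ i j, i < j → j < n → b i < b j) → RelD D n b → Q ≤ ∑ i ∈ range n, b i ^ 2 →
    ((List.range n).map b).reverse ∈ srd f n A D Q := by
  intro f
  induction f with
  | zero =>
    intro n A D Q b hA _ _ hAb _ _ _
    match n, hAb with
    | 0, _ => simp [srd]
    | n + 1, hAb =>
      have h0 : A = 0 := by simpa using hA
      have := hAb n rfl
      rw [h0] at this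
      simp at this
  | succ f ih =>
    intro n A D Q b hA hD hpos hAb hmono hrel hQ
    match n, hpos, hAb, hmono, hrel, hQ with
    | 0, _, _, _, _, _ => simp [srd]
    | n + 1, hpos, hAb, hmono, hrel, hQ =>
      have hbit := hAb n rfl
      match A, hA, hbit with
      | 0, _, hbit => simp at hbit
      | A' + 1, hA, hbit =>
        have hle : b n ≤ Nat.log2 (A' + 1) := by
          by_contra hlt
          have h1 : A' + 1 < 2 ^ b n := by
            rw [← Nat.log2_lt (by omega)]
            omega
          rw [Nat.testBit_lt_two_pow h1] at hbit
          exact absurd hbit (by simp)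
        have hlog : Nat.log2 (A' + 1) ≤ f := by
          have : Nat.log2 (A' + 1) < f + 1 := by
            rw [Nat.log2_lt (by omega)]
            exact hA
          omega
        have hself : 2 ^ Nat.log2 (A' + 1) ≤ A' + 1 := Nat.log2_self_le (by omega)
        have hup : A' + 1 < 2 ^ (Nat.log2 (A' + 1) + 1) := Nat.lt_log2_self
        have hp := hpos n (by omega)
        generalize hc : Nat.log2 (A' + 1) = l at *
        match l, hc, hle, hlog, hself, hup with
        | 0, hc, hle, _, _, _ => omega
        | c + 1, hc, hle, hlog, hself, hup =>
          have hble : Nat.ble Q (Nat.mul (n + 1) (Nat.mul (c + 1) (c + 1))) = true := by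
            rw [Nat.ble_eq]
            change Q ≤ (n + 1) * ((c + 1) * (c + 1))
            refine hQ.trans ?_
            calc ∑ i ∈ range (n + 1), b i ^ 2 ≤ ∑ i ∈ range (n + 1), (c + 1) * (c + 1) := by
                  apply Finset.sum_le_sum
                  intro i hi
                  rw [mem_range] at hi
                  have : b i ≤ c + 1 := by
                    rcases Nat.lt_or_ge i n with h2 | h2
                    · have := hmono i n h2 (by omega)
                      omega
                    · have : i = n := by omega
                      subst this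
                      exact hle
                  rw [pow_two]
                  exact Nat.mul_le_mul this this
              _ = (n + 1) * ((c + 1) * (c + 1)) := by
                  rw [Finset.sum_const, card_range, smul_eq_mul]
          have hxlt : Nat.xor (A' + 1) (Nat.shiftLeft 1 (c + 1)) < 2 ^ (c + 1) := by
            change (A' + 1) ^^^ (1 <<< (c + 1)) < _
            apply Nat.lt_pow_two_of_testBit
            intro i hi
            rw [Nat.testBit_xor, Nat.one_shiftLeft, Nat.testBit_two_pow]
            rcases Nat.lt_or_ge (c + 1) i with h2 | h2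
            · rw [Nat.testBit_lt_two_pow (lt_of_lt_of_le hup (Nat.pow_le_pow_right (by norm_num)
                (by omega)))]
              simp
              omega
            · have : i = c + 1 := by omega
              subst this
              have h3 : (A' + 1).testBit (c + 1) = true := by
                rw [← hc]
                exact Nat.testBit_log2 (by omega)
              rw [h3]
              simp
          have hrest : b n ≠ c + 1 → ((List.range (n + 1)).map b).reverse ∈
              srd f (n + 1) (Nat.xor (A' + 1) (Nat.shiftLeft 1 (c + 1))) D Q := by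
            intro hne
            apply ih (n + 1) _ D Q b (lt_of_lt_of_le hxlt (Nat.pow_le_pow_right (by norm_num) hlog))
              hD hpos _ hmono hrel hQ
            intro m hm
            have : m = n := by omega
            subst this
            change ((A' + 1) ^^^ (1 <<< (c + 1))).testBit (b m) = true
            rw [Nat.testBit_xor, Nat.one_shiftLeft, Nat.testBit_two_pow, hbit]
            simp
            omega
          by_cases hM : b n = c + 1
          · have hok : okD D (c + 1) = true := by
              unfold okD
              have h2 := hrel.not_mem (c := 2) (by norm_num) le_rfl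
              rw [hM] at h2
              have hz : (D >>> (512 + 2 * (c + 1))) &&& 1 = 0 := by
                rw [Nat.testBit_eq_decide_div_mod_eq] at h2
                rw [Nat.and_one_is_mod, Nat.shiftRight_eq_div_pow]
                simp only [decide_eq_false_iff_not] at h2
                omega
              change ((D >>> (512 + 2 * (c + 1))) &&& 1).beq 0 = true
              rw [hz]
              rfl
            have hne0 : nD D (c + 1) ≠ 0 := nD_ne_zero hD
            obtain ⟨E, hE⟩ := Nat.exists_eq_succ_of_ne_zero hne0
            have hin : ((List.range n).map b).reverse ∈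
                srd f n (nA (E + 1) (c + 1)) (E + 1) (Nat.sub Q (Nat.mul (c + 1) (c + 1))) := by
              have hrel' : RelD (E + 1) n b := by
                have := hrel.next
                rw [hM, hE] at this
                exact this
              apply ih n _ _ _ b
              · refine lt_of_lt_of_le ?_ (Nat.pow_le_pow_right (by norm_num) hlog)
                change ((((E + 1) >>> 512) &&& (1 <<< (c + 1) - 1)) ^^^ (1 <<< (c + 1) - 1)) < _
                rw [Nat.one_shiftLeft]
                apply Nat.xor_lt_two_pow
                · exact lt_of_le_of_lt Nat.and_le_right (Nat.sub_lt (by positivity) (by norm_num))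
                · exact Nat.sub_lt (by positivity) (by norm_num)
              · omega
              · intro i hi
                exact hpos i (by omega)
              · intro m hm
                subst hm
                have h3 := hrel'.not_mem (c := 1) le_rfl (by norm_num)
                have h4 := hmono m (m + 1) (by omega) (by omega)
                change ((((E + 1) >>> 512) &&& (1 <<< (c + 1) - 1)) ^^^
                  (1 <<< (c + 1) - 1)).testBit (b m) = true
                rw [Nat.one_shiftLeft, Nat.testBit_xor, Nat.testBit_and, Nat.testBit_shiftRight,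
                  Nat.testBit_two_pow_sub_one]
                rw [one_mul] at h3
                rw [h3]
                simp
                omega
              · intro i j hij hj
                exact hmono i j hij (by omega)
              · exact hrel'
              · change Q - (c + 1) * (c + 1) ≤ _
                rw [Finset.sum_range_succ, hM, pow_two (c + 1)] at hQ
                omega
            simp only [srd, hc, hble, hok, hE]
            rw [List.mem_append]
            left
            rw [List.mem_map]
            refine ⟨_, hin, ?_⟩
            rw [List.range_succ, List.map_append, List.reverse_append]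
            simp [hM]
          · have h2 := hrest hM
            simp only [srd, hc, hble]
            cases hok : okD D (c + 1) with
            | false => exact h2
            | true =>
              obtain ⟨E, hE⟩ := Nat.exists_eq_succ_of_ne_zero (nD_ne_zero (b := c + 1) hD)
              simp only [hE, List.mem_append]
              right
              exact h2

lemma TDL_of_TD {k : ℕ} {b : ℕ → ℕ} (h : TD k b) :
    TDL ((List.range k).map (fun i => b (i + 1))) := by
  intro e he hs i hi
  simp only [List.length_map, List.length_range] at he hs hi
  have hget : ∀ i < k, ((List.range k).map (fun i => b (i + 1))).getD i 0 = b (i + 1) := by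
    intro i hi
    rw [List.getD_eq_getElem _ _ (by simpa using hi)]
    simp
  have key := h (fun i => e (i - 1)) (by
    intro j hj
    rw [Finset.mem_Icc] at hj
    exact he (j - 1) (by omega)) (by
    rw [sum_Icc_range]
    simp only [Nat.add_sub_cancel]
    rw [← hs]
    apply Finset.sum_congr rfl
    intro j hj
    rw [Finset.mem_range] at hj
    rw [hget j hj])
  have := key (i + 1) (by rw [Finset.mem_Icc]; omega)
  simpa using this

/-- the search for the elements below the last term `M` of an admissible sequence of length
`k + 1` -/
def top (k M : ℕ) : List (List ℕ) :=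
  srd M k (nA (nD (2 ^ 512) M) M) (nD (2 ^ 512) M) ((9 ^ (k + 1) - 1) / 8 - M * M)

set_option exponentiation.threshold 600 in
/-- every admissible sequence with last term `M` is found by the search -/
lemma adm_mem_srd {k M : ℕ} {b : ℕ → ℕ} (hb : Admissible 3 (k + 1) b) (hM : b (k + 1) = M) :
    ((List.range k).map (fun i => b (i + 1))).reverse ∈ top k M := by
  unfold top
  obtain ⟨hpos, hmono, htd⟩ := admissible_iff.mp hb
  have hrel0 : RelD (2 ^ 512) (k + 1) (fun i => b (i + 1)) := by
    intro p hp e he hs i hi
    rw [Nat.testBit_two_pow] at hp
    have hp' : p = 512 := by simpa [eq_comm] using hp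
    subst hp'
    have := htd (fun i => e (i - 1)) (fun j _ => he (j - 1)) (by
      rw [sum_Icc_range]
      simp only [Nat.add_sub_cancel]
      push_cast at hs
      linarith) (i + 1) (by rw [mem_Icc]; omega)
    simpa using this
  have hrel : RelD (nD (2 ^ 512) M) k (fun i => b (i + 1)) := by
    have := hrel0.next
    simp only [hM] at this
    exact this
  apply srd_complete M k _ _ _ (fun i => b (i + 1))
  · change ((((nD (2 ^ 512) M) >>> 512) &&& (1 <<< M - 1)) ^^^ (1 <<< M - 1)) < _
    rw [Nat.one_shiftLeft]
    apply Nat.xor_lt_two_pow
    · exact lt_of_le_of_lt Nat.and_le_right (Nat.sub_lt (by positivity) (by norm_num))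
    · exact Nat.sub_lt (by positivity) (by norm_num)
  · exact nD_ne_zero (by positivity)
  · intro i hi
    exact hpos (i + 1) (by rw [mem_Icc]; omega)
  · intro m hm
    subst hm
    have h3 := hrel.not_mem (c := 1) le_rfl (by norm_num)
    have h4 := hmono (m + 1) (by rw [mem_Icc]; omega) (m + 1 + 1) (by rw [mem_Icc]; omega)
      (by omega)
    change ((((nD (2 ^ 512) M) >>> 512) &&& (1 <<< M - 1)) ^^^ (1 <<< M - 1)).testBit (b (m + 1))
      = true
    rw [Nat.one_shiftLeft, Nat.testBit_xor, Nat.testBit_and, Nat.testBit_shiftRight,
      Nat.testBit_two_pow_sub_one]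
    rw [one_mul] at h3
    rw [h3]
    simp
    omega
  · intro i j hij hj
    exact hmono (i + 1) (by rw [mem_Icc]; omega) (j + 1) (by rw [mem_Icc]; omega) (by omega)
  · exact hrel
  · have h2 := second_moment (TDL_of_TD htd)
    simp only [List.length_map, List.length_range, List.map_map, Function.comp_def] at h2
    have e : ((List.range (k + 1)).map (fun i => ((b (i + 1) : ℕ) : ℤ) ^ 2)).sum =
        ((∑ i ∈ Finset.range (k + 1), (b (i + 1)) ^ 2 : ℕ) : ℤ) := by
      push_cast
      rw [← Finset.sum_map_val]
      rfl
    rw [e] at h2
    have h3 : (9 ^ (k + 1) - 1 : ℕ) ≤ 8 * ∑ i ∈ Finset.range (k + 1), (b (i + 1)) ^ 2 := by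
      have h9 : 1 ≤ 9 ^ (k + 1) := Nat.one_le_pow _ _ (by norm_num)
      have : ((9 ^ (k + 1) - 1 : ℕ) : ℤ) ≤
          ((8 * ∑ i ∈ Finset.range (k + 1), (b (i + 1)) ^ 2 : ℕ) : ℤ) := by
        push_cast [Nat.cast_sub h9]
        push_cast at h2
        linarith
      exact_mod_cast this
    rw [Finset.sum_range_succ, hM, pow_two M] at h3
    have h5 : (9 ^ (k + 1) - 1) / 8 ≤ ∑ i ∈ Finset.range k, (b (i + 1)) ^ 2 + M * M := by omega
    omega

end Pool.Agent.Lib.MP_727445_co
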