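import Pool.Agent.Lib.MP_727445_co.ExactD

namespace Pool.Agent.Lib.MP_727445_co

set_option maxRecDepth 100000
set_option exponentiation.threshold 600

lemma top_58 : top 4 58 = [] := by decide +kernel

lemma top_59 : top 4 59 = [] := by decide +kernel

end Pool.Agent.Lib.MP_727445_co
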