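import Pool.Agent.Lib.MP_727445_co.TopA
import Pool.Agent.Lib.MP_727445_co.TopB
import Pool.Agent.Lib.MP_727445_co.TopC
import Pool.Agent.Lib.MP_727445_co.TopD

namespace Pool.Agent.Lib.MP_727445_co

open Finset

set_option exponentiation.threshold 600

lemma top_three_8 : top 2 8 = [[7, 5]] := by decide +kernel

lemma top_four_22 : top 3 22 = [[21, 19, 14], [21, 19, 7]] := by decide +kernel

lemma adm_congr {k : ℕ} {b c : ℕ → ℕ} (h : ∀ i ∈ Icc 1 k, b i = c i) (hb : Admissible 3 k b) :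
    Admissible 3 k c := by
  rw [admissible_iff] at hb ⊢
  obtain ⟨h1, h2, h3⟩ := hb
  refine ⟨fun i hi => ?_, fun i hi j hj hij => ?_, fun e he hs => h3 e he ?_⟩
  · rw [← h i hi]; exact h1 i hi
  · rw [← h i hi, ← h j hj]; exact h2 i hi j hj hij
  · rw [← hs]
    exact Finset.sum_congr rfl (fun i hi => by rw [h i hi])

lemma opt_three (b : ℕ → ℕ) : (Admissible 3 3 b ∧ b 3 = 8) ↔ (b 1 = 5 ∧ b 2 = 7 ∧ b 3 = 8) := by
  constructor
  · rintro ⟨hb, h3⟩
    have h := adm_mem_srd (k := 2) hb h3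
    rw [top_three_8] at h
    simp [List.range_succ] at h
    omega
  · rintro ⟨h1, h2, h3⟩
    refine ⟨adm_congr ?_ (adm_of_list [5, 7, 8] (by decide +kernel) (by decide) (by decide)), h3⟩
    intro i hi
    simp only [List.length_cons, List.length_nil, mem_Icc] at hi
    obtain ⟨hi1, hi2⟩ := hi
    interval_cases i <;> simp [h1, h2, h3]

lemma opt_four (b : ℕ → ℕ) : (Admissible 3 4 b ∧ b 4 = 22) ↔
    ((b 1 = 7 ∨ b 1 = 14) ∧ b 2 = 19 ∧ b 3 = 21 ∧ b 4 = 22) := by
  constructor
  · rintro ⟨hb, h3⟩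
    have h := adm_mem_srd (k := 3) hb h3
    rw [top_four_22] at h
    simp [List.range_succ] at h
    omega
  · rintro ⟨h1 | h1, h2, h3, h4⟩
    · refine ⟨adm_congr ?_ (adm_of_list [7, 19, 21, 22] (by decide +kernel) (by decide)
        (by decide)), h4⟩
      intro i hi
      simp only [List.length_cons, List.length_nil, mem_Icc] at hi
      obtain ⟨hi1, hi2⟩ := hi
      interval_cases i <;> simp [h1, h2, h3, h4]
    · refine ⟨adm_congr ?_ (adm_of_list [14, 19, 21, 22] (by decide +kernel) (by decide)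
        (by decide)), h4⟩
      intro i hi
      simp only [List.length_cons, List.length_nil, mem_Icc] at hi
      obtain ⟨hi1, hi2⟩ := hi
      interval_cases i <;> simp [h1, h2, h3, h4]

lemma five_ge (b : ℕ → ℕ) (hb : Admissible 3 5 b) : 60 ≤ b 5 := by
  by_contra hc
  have h := adm_mem_srd (k := 4) hb rfl
  have e : top 4 (b 5) = [] := by
    rcases Nat.lt_or_ge (b 5) 51 with h2 | h2
    · exact top_lt _ h2
    · have h3 : b 5 = 51 ∨ b 5 = 52 ∨ b 5 = 53 ∨ b 5 = 54 ∨ b 5 = 55 ∨ b 5 = 56 ∨ b 5 = 57 ∨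
          b 5 = 58 ∨ b 5 = 59 := by omega
      rcases h3 with h3 | h3 | h3 | h3 | h3 | h3 | h3 | h3 | h3 <;> rw [h3]
      exacts [top_51, top_52, top_53, top_54, top_55, top_56, top_57, top_58, top_59]
  rw [e] at h
  simp at h

lemma opt_five (b : ℕ → ℕ) : (Admissible 3 5 b ∧ b 5 = 60) ↔
    ((b 1 = 19 ∨ b 1 = 38) ∧ b 2 = 52 ∧ b 3 = 57 ∧ b 4 = 59 ∧ b 5 = 60) := by
  constructor
  · rintro ⟨hb, h5⟩
    have h := adm_mem_srd (k := 4) hb h5
    rw [top_60] at h
    simp [List.range_succ] at h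
    omega
  · rintro ⟨h1 | h1, h2, h3, h4, h5⟩
    · refine ⟨adm_congr ?_ (adm_of_list [19, 52, 57, 59, 60] (by decide +kernel) (by decide)
        (by decide)), h5⟩
      intro i hi
      simp only [List.length_cons, List.length_nil, mem_Icc] at hi
      obtain ⟨hi1, hi2⟩ := hi
      interval_cases i <;> simp [h1, h2, h3, h4, h5]
    · refine ⟨adm_congr ?_ (adm_of_list [38, 52, 57, 59, 60] (by decide +kernel) (by decide)
        (by decide)), h5⟩
      intro i hi
      simp only [List.length_cons, List.length_nil, mem_Icc] at hi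
      obtain ⟨hi1, hi2⟩ := hi
      interval_cases i <;> simp [h1, h2, h3, h4, h5]

lemma g_five : g 3 5 = 60 := by
  apply le_antisymm
  · exact g_le (adm_of_list [38, 52, 57, 59, 60] (by decide +kernel) (by decide) (by decide))
  · obtain ⟨b, hb, hbk⟩ := g_attained (k := 5) (by norm_num)
    have := five_ge b hb
    omega

end Pool.Agent.Lib.MP_727445_co
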