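import Pool.Agent.Lib.MP_727445_co.Equiv

namespace Pool.Agent.Lib.MP_727445_co

open Finset

/-- logistic function -/
noncomputable def lgs (lam x : ℝ) : ℝ := Real.exp (lam * x) / (1 + Real.exp (lam * x))

lemma lgs_pos (lam x : ℝ) : 0 < lgs lam x := by unfold lgs; positivity

lemma lgs_lt_one (lam x : ℝ) : lgs lam x < 1 := by
  unfold lgs
  rw [div_lt_one (by positivity)]
  linarith

lemma lgs_symm (lam x : ℝ) : lgs lam (-x) = 1 - lgs lam x := by
  unfold lgs
  have h : Real.exp (lam * -x) = (Real.exp (lam * x))⁻¹ := by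
    rw [← Real.exp_neg]; congr 1; ring
  rw [h]
  have := Real.exp_pos (lam * x)
  field_simp
  ring

lemma lgs_sub (lam x y : ℝ) : lgs lam y - lgs lam x =
    (Real.exp (lam * y) - Real.exp (lam * x)) / ((1 + Real.exp (lam * y)) * (1 + Real.exp (lam * x))) := by
  unfold lgs
  have := Real.exp_pos (lam * x)
  have := Real.exp_pos (lam * y)
  field_simp
  ring

lemma lgs_strictMono {lam : ℝ} (hl : 0 < lam) : StrictMono (lgs lam) := by
  intro x y hxy
  have h1 := lgs_sub lam x y
  have h2 : 0 < Real.exp (lam * y) - Real.exp (lam * x) := by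
    rw [sub_pos, Real.exp_lt_exp]
    nlinarith
  have : 0 < lgs lam y - lgs lam x := by
    rw [h1]
    positivity
  linarith

lemma lgs_continuous (lam : ℝ) : Continuous (lgs lam) := by
  unfold lgs
  apply Continuous.div (by fun_prop) (by fun_prop)
  intro x
  positivity

/-- `F n` is the logistic smoothing of the distribution function of the sum of `n` ternary steps -/
noncomputable def FF (lam : ℝ) : ℕ → ℝ → ℝ
  | 0, x => lgs lam x
  | n + 1, x => FF lam n (x - 1) + FF lam n x + FF lam n (x + 1)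

/-- the same with general step sizes -/
noncomputable def HH (lam : ℝ) : List ℝ → ℝ → ℝ
  | [], x => lgs lam x
  | b :: L, x => HH lam L (x - b) + HH lam L x + HH lam L (x + b)

lemma FF_strictMono {lam : ℝ} (hl : 0 < lam) (n : ℕ) : StrictMono (FF lam n) := by
  induction n with
  | zero => exact lgs_strictMono hl
  | succ n ih =>
    intro x y hxy
    simp only [FF]
    have h1 := ih (show x - 1 < y - 1 by linarith)
    have h2 := ih hxy
    have h3 := ih (show x + 1 < y + 1 by linarith)
    linarith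

lemma FF_continuous (lam : ℝ) (n : ℕ) : Continuous (FF lam n) := by
  induction n with
  | zero => exact lgs_continuous lam
  | succ n ih =>
    simp only [FF]
    exact ((ih.comp (by fun_prop)).add ih).add (ih.comp (by fun_prop))

lemma HH_strictMono {lam : ℝ} (hl : 0 < lam) (L : List ℝ) : StrictMono (HH lam L) := by
  induction L with
  | nil => exact lgs_strictMono hl
  | cons b L ih =>
    intro x y hxy
    simp only [HH]
    have h1 := ih (show x - b < y - b by linarith)
    have h2 := ih hxy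
    have h3 := ih (show x + b < y + b by linarith)
    linarith

lemma HH_pos (lam : ℝ) (L : List ℝ) (x : ℝ) : 0 < HH lam L x := by
  induction L generalizing x with
  | nil => exact lgs_pos lam x
  | cons b L ih =>
    simp only [HH]
    have h1 := ih (x - b)
    have h2 := ih x
    have h3 := ih (x + b)
    linarith

lemma HH_lt (lam : ℝ) (L : List ℝ) (x : ℝ) : HH lam L x < 3 ^ L.length := by
  induction L generalizing x with
  | nil => simpa [HH] using lgs_lt_one lam x
  | cons b L ih =>
    simp only [HH, List.length_cons]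
    have h1 := ih (x - b)
    have h2 := ih x
    have h3 := ih (x + b)
    rw [pow_succ]
    linarith

lemma HH_symm (lam : ℝ) (L : List ℝ) (x : ℝ) : HH lam L (-x) = 3 ^ L.length - HH lam L x := by
  induction L generalizing x with
  | nil => simpa [HH] using lgs_symm lam x
  | cons b L ih =>
    simp only [HH, List.length_cons]
    have h1 := ih (x - b)
    have h2 := ih x
    have h3 := ih (x + b)
    rw [show -x - b = -(x + b) by ring, show -x + b = -(x - b) by ring, h1, h2, h3, pow_succ]
    ring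

lemma FF_symm (lam : ℝ) (n : ℕ) (x : ℝ) : FF lam n (-x) = 3 ^ n - FF lam n x := by
  induction n generalizing x with
  | zero => simpa [FF] using lgs_symm lam x
  | succ n ih =>
    simp only [FF]
    have h1 := ih (x - 1)
    have h2 := ih x
    have h3 := ih (x + 1)
    rw [show -x - 1 = -(x + 1) by ring, show -x + 1 = -(x - 1) by ring, h1, h2, h3, pow_succ]
    ring

/-- limits at infinity, in a weak form: every value in `(0, 3^n)` is attained -/
lemma lgs_tendsto_top {lam : ℝ} (hl : 0 < lam) : Filter.Tendsto (lgs lam) Filter.atTop (nhds 1) := by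
  have h1 : lgs lam = fun x => 1 - 1 / (1 + Real.exp (lam * x)) := by
    ext x
    unfold lgs
    have := Real.exp_pos (lam * x)
    field_simp
    ring
  rw [h1]
  have h2 : Filter.Tendsto (fun x : ℝ => 1 + Real.exp (lam * x)) Filter.atTop Filter.atTop := by
    apply Filter.tendsto_atTop_add_const_left
    exact Real.tendsto_exp_atTop.comp (Filter.tendsto_id.const_mul_atTop hl)
  have h3 : Filter.Tendsto (fun x : ℝ => 1 / (1 + Real.exp (lam * x))) Filter.atTop (nhds 0) := by
    simp only [one_div]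
    exact h2.inv_tendsto_atTop
  simpa using h3.const_sub 1

lemma FF_tendsto_top {lam : ℝ} (hl : 0 < lam) (n : ℕ) :
    Filter.Tendsto (FF lam n) Filter.atTop (nhds (3 ^ n)) := by
  induction n with
  | zero => simpa [FF] using lgs_tendsto_top hl
  | succ n ih =>
    have h1 : Filter.Tendsto (fun x : ℝ => FF lam n (x - 1)) Filter.atTop (nhds (3 ^ n)) :=
      ih.comp (Filter.tendsto_atTop_add_const_right _ (-1) Filter.tendsto_id)
    have h3 : Filter.Tendsto (fun x : ℝ => FF lam n (x + 1)) Filter.atTop (nhds (3 ^ n)) :=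
      ih.comp (Filter.tendsto_atTop_add_const_right _ 1 Filter.tendsto_id)
    have := (h1.add ih).add h3
    have e : (3 : ℝ) ^ (n + 1) = 3 ^ n + 3 ^ n + 3 ^ n := by ring
    rw [e]
    exact this

lemma FF_surj {lam : ℝ} (hl : 0 < lam) (n : ℕ) {y : ℝ} (h0 : 0 < y) (h1 : y < 3 ^ n) :
    ∃ t, FF lam n t = y := by
  have htop := FF_tendsto_top hl n
  obtain ⟨u, hu⟩ := (htop.eventually (lt_mem_nhds h1)).exists
  obtain ⟨v, hv⟩ := (htop.eventually (lt_mem_nhds (show 3 ^ n - y < 3 ^ n by linarith))).exists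
  have hv' : FF lam n (-v) < y := by rw [FF_symm]; linarith
  have := mem_range_of_exists_le_of_exists_ge (FF_continuous lam n) ⟨-v, hv'.le⟩ ⟨u, hu.le⟩
  exact this

/-- comparison of the increments over intervals moved by one -/
def Comp (f : ℝ → ℝ) : Prop :=
  ∀ u v w z : ℝ, u ≤ v → w ≤ z → u ≤ w → v ≤ z →
    (f (z + 1) - f (w + 1)) * (f v - f u) ≤ (f (v + 1) - f (u + 1)) * (f z - f w)

lemma comp_lgs {lam : ℝ} (hl : 0 < lam) : Comp (lgs lam) := by
  intro u v w z huv hwz huw hvz
  rw [lgs_sub, lgs_sub, lgs_sub, lgs_sub]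
  have e : ∀ t : ℝ, Real.exp (lam * (t + 1)) = Real.exp lam * Real.exp (lam * t) := by
    intro t; rw [← Real.exp_add]; congr 1; ring
  rw [e, e, e, e]
  have hq : 1 < Real.exp lam := by
    rw [← Real.exp_zero]; exact Real.exp_lt_exp.mpr hl
  have mono : ∀ s t : ℝ, s ≤ t → Real.exp (lam * s) ≤ Real.exp (lam * t) := by
    intro s t hst
    exact Real.exp_le_exp.mpr (by nlinarith)
  have hU := Real.exp_pos (lam * u)
  have hV := Real.exp_pos (lam * v)
  have hW := Real.exp_pos (lam * w)
  have hZ := Real.exp_pos (lam * z)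
  have hUV := mono _ _ huv
  have hWZ := mono _ _ hwz
  have hUW := mono _ _ huw
  have hVZ := mono _ _ hvz
  set q := Real.exp lam
  set U := Real.exp (lam * u)
  set V := Real.exp (lam * v)
  set W := Real.exp (lam * w)
  set Z := Real.exp (lam * z)
  rw [div_mul_div_comm, div_mul_div_comm, div_le_div_iff₀ (by positivity) (by positivity)]
  have k1 : (1 + q * U) * (1 + W) ≤ (1 + q * W) * (1 + U) := by nlinarith
  have k2 : (1 + q * V) * (1 + Z) ≤ (1 + q * Z) * (1 + V) := by nlinarith
  have k3 : ((1 + q * U) * (1 + W)) * ((1 + q * V) * (1 + Z)) ≤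
      ((1 + q * W) * (1 + U)) * ((1 + q * Z) * (1 + V)) := by
    apply mul_le_mul k1 k2 (by positivity) (by positivity)
  have k4 : 0 ≤ q * (Z - W) * (V - U) := by
    have : 0 ≤ Z - W := by linarith
    have : 0 ≤ V - U := by linarith
    positivity
  have k5 := mul_le_mul_of_nonneg_left k3 k4
  nlinarith [k5]

lemma comp_step {f : ℝ → ℝ} (hf : StrictMono f) (hc : Comp f) :
    Comp (fun x => f (x - 1) + f x + f (x + 1)) := by
  intro u v w z huv hwz huw hvz
  -- trivial if one of the intervals is degenerate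
  rcases huv.eq_or_lt with h | huv'
  · subst h
    have : 0 ≤ 0 := le_rfl
    simp
  rcases hwz.eq_or_lt with h | hwz'
  · subst h
    simp
  -- G j = mu(I + j), H j = mu(J + j)
  have m1 : ∀ c : ℝ, 0 < f (z + c) - f (w + c) := fun c => sub_pos.mpr (hf (by linarith))
  have m2 : ∀ c : ℝ, 0 < f (v + c) - f (u + c) := fun c => sub_pos.mpr (hf (by linarith))
  have st : ∀ c : ℝ, (f (z + (c + 1)) - f (w + (c + 1))) * (f (v + c) - f (u + c)) ≤
      (f (v + (c + 1)) - f (u + (c + 1))) * (f (z + c) - f (w + c)) := by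
    intro c
    have := hc (u + c) (v + c) (w + c) (z + c) (by linarith) (by linarith) (by linarith) (by linarith)
    simpa only [add_assoc] using this
  -- G's
  have g0 := m1 (-1); have g1 := m1 0; have g2 := m1 1; have g3 := m1 2
  have h0 := m2 (-1); have h1 := m2 0; have h2 := m2 1; have h3 := m2 2
  have s0 := st (-1); have s1 := st 0; have s2 := st 1
  norm_num at s0 s1 s2
  simp only [add_zero] at g1 h1
  have e1 : z + -1 = z - 1 := by ring
  have e2 : w + -1 = w - 1 := by ring
  have e3 : v + -1 = v - 1 := by ring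
  have e4 : u + -1 = u - 1 := by ring
  rw [e1, e2] at g0
  rw [e3, e4] at h0
  rw [e1, e2, e3, e4] at s0
  have a1 : z + 1 - 1 = z := by ring
  have a2 : w + 1 - 1 = w := by ring
  have a3 : v + 1 - 1 = v := by ring
  have a4 : u + 1 - 1 = u := by ring
  have b1 : z + 1 + 1 = z + 2 := by ring
  have b2 : w + 1 + 1 = w + 2 := by ring
  have b3 : v + 1 + 1 = v + 2 := by ring
  have b4 : u + 1 + 1 = u + 2 := by ring
  simp only [a1, a2, a3, a4, b1, b2, b3, b4]
  set G0 := f (z - 1) - f (w - 1)
  set G1 := f z - f w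
  set G2 := f (z + 1) - f (w + 1)
  set G3 := f (z + 2) - f (w + 2)
  set H0 := f (v - 1) - f (u - 1)
  set H1 := f v - f u
  set H2 := f (v + 1) - f (u + 1)
  set H3 := f (v + 2) - f (u + 2)
  -- s0 : G1 * H0 <= H1 * G0, s1 : G2 * H1 <= H2 * G1, s2 : G3 * H2 <= H3 * G2
  have p02 : G2 * H0 ≤ H2 * G0 := by
    have h5 := mul_le_mul s0 s1 (mul_pos g2 h1).le (mul_pos h1 g0).le
    have h6 : (G2 * H0) * (G1 * H1) ≤ (H2 * G0) * (G1 * H1) := by
      calc (G2 * H0) * (G1 * H1) = G1 * H0 * (G2 * H1) := by ring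
        _ ≤ H1 * G0 * (H2 * G1) := h5
        _ = (H2 * G0) * (G1 * H1) := by ring
    exact le_of_mul_le_mul_right h6 (mul_pos g1 h1)
  have p13 : G3 * H1 ≤ H3 * G1 := by
    have h5 := mul_le_mul s1 s2 (mul_pos g3 h2).le (mul_pos h2 g1).le
    have h6 : (G3 * H1) * (G2 * H2) ≤ (H3 * G1) * (G2 * H2) := by
      calc (G3 * H1) * (G2 * H2) = G2 * H1 * (G3 * H2) := by ring
        _ ≤ H2 * G1 * (H3 * G2) := h5
        _ = (H3 * G1) * (G2 * H2) := by ring
    exact le_of_mul_le_mul_right h6 (mul_pos g2 h2)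
  have p03 : G3 * H0 ≤ H3 * G0 := by
    have h5 := mul_le_mul p02 s2 (mul_pos g3 h2).le (mul_pos h2 g0).le
    have h6 : (G3 * H0) * (G2 * H2) ≤ (H3 * G0) * (G2 * H2) := by
      calc (G3 * H0) * (G2 * H2) = G2 * H0 * (G3 * H2) := by ring
        _ ≤ H2 * G0 * (H3 * G2) := h5
        _ = (H3 * G0) * (G2 * H2) := by ring
    exact le_of_mul_le_mul_right h6 (mul_pos g2 h2)
  have c1 : f z + f (z + 1) + f (z + 2) - (f w + f (w + 1) + f (w + 2)) = G1 + G2 + G3 := by
    simp only [G1, G2, G3]; ring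
  have c2 : f (v - 1) + f v + f (v + 1) - (f (u - 1) + f u + f (u + 1)) = H0 + H1 + H2 := by
    simp only [H0, H1, H2]; ring
  have c3 : f v + f (v + 1) + f (v + 2) - (f u + f (u + 1) + f (u + 2)) = H1 + H2 + H3 := by
    simp only [H1, H2, H3]; ring
  have c4 : f (z - 1) + f z + f (z + 1) - (f (w - 1) + f w + f (w + 1)) = G0 + G1 + G2 := by
    simp only [G0, G1, G2]; ring
  rw [c1, c2, c3, c4]
  clear_value G0 G1 G2 G3 H0 H1 H2 H3
  linarith only [s0, s1, s2, p02, p13, p03,
    show (G1 + G2 + G3) * (H0 + H1 + H2) = G1 * H0 + G1 * H1 + G1 * H2 + G2 * H0 + G2 * H1 + G2 * H2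
      + G3 * H0 + G3 * H1 + G3 * H2 by ring,
    show (H1 + H2 + H3) * (G0 + G1 + G2) = H1 * G0 + H1 * G1 + H1 * G2 + H2 * G0 + H2 * G1 + H2 * G2
      + H3 * G0 + H3 * G1 + H3 * G2 by ring,
    show G1 * H1 = H1 * G1 by ring, show G2 * H2 = H2 * G2 by ring, show G1 * H2 = H2 * G1 by ring,
    show G2 * H1 = H1 * G2 by ring]

lemma comp_FF {lam : ℝ} (hl : 0 < lam) (n : ℕ) : Comp (FF lam n) := by
  induction n with
  | zero => exact comp_lgs hl
  | succ n ih => exact comp_step (FF_strictMono hl n) ih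

/-- the numerical heart of the isoperimetric induction -/
lemma three_ineq {f : ℝ → ℝ} (hf : StrictMono f) (hc : Comp f) {t0 t1 t2 θ : ℝ}
    (h21 : t2 ≤ t1) (h10 : t1 ≤ t0)
    (hsum : f (θ - 1) + f θ + f (θ + 1) ≤ f t0 + f t1 + f t2) {A0 A1 A2 : ℝ}
    (hA0 : f (t0 + 1) ≤ A0) (hA1 : f (t1 + 1) ≤ A1) (hA1' : f t0 ≤ A1)
    (hA2 : f (t2 + 1) ≤ A2) (hA2' : f t1 ≤ A2) :
    f θ + f (θ + 1) + f (θ + 2) ≤ A0 + A1 + A2 := by
  have mono : ∀ {x y : ℝ}, x ≤ y → f x ≤ f y := fun h => hf.monotone h
  have e12 : θ + 1 + 1 = θ + 2 := by ring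
  have em : θ - 1 + 1 = θ := by ring
  rcases le_or_gt (θ - 1) t2 with h2 | h2
  · -- θ - 1 ≤ t2
    have k2 : f θ ≤ f (t2 + 1) := mono (by linarith)
    rcases le_or_gt (θ + 1) t0 with h0 | h0
    · have k0 : f (θ + 2) ≤ f (t0 + 1) := mono (by linarith)
      have k1 : f (θ + 1) ≤ f t0 := mono h0
      linarith
    · rcases le_or_gt θ t1 with h1 | h1
      · -- gains J = [θ-1, t2], J' = [θ, t1], loss I = [t0, θ+1]
        have c1 := hc (θ - 1) t2 t0 (θ + 1) h2 h0.le (by linarith) (by linarith)
        have c2 := hc θ t1 t0 (θ + 1) h1 h0.le (by linarith) (by linarith)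
        rw [e12, em] at c1
        rw [e12] at c2
        have hpos : 0 < f (θ + 1) - f t0 := sub_pos.mpr (hf h0)
        have hI : 0 ≤ f (θ + 2) - f (t0 + 1) := sub_nonneg.mpr (mono (by linarith))
        -- (I+1) * (J + J') <= (J+1 + J'+1) * I
        have hJ : f (θ + 1) - f t0 ≤ (f t2 - f (θ - 1)) + (f t1 - f θ) := by linarith
        have k : (f (θ + 2) - f (t0 + 1)) * (f (θ + 1) - f t0) ≤
            ((f (t2 + 1) - f θ) + (f (t1 + 1) - f (θ + 1))) * (f (θ + 1) - f t0) := by
          have := mul_le_mul_of_nonneg_left hJ hI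
          nlinarith
        have := le_of_mul_le_mul_right k hpos
        linarith
      · -- t1 < θ: J = [θ-1, t2], losses I1 = [t1, θ], I0 = [t0, θ+1]
        have c1 := hc (θ - 1) t2 t1 θ h2 h1.le (by linarith) (by linarith)
        have c0 := hc (θ - 1) t2 t0 (θ + 1) h2 h0.le (by linarith) (by linarith)
        rw [em] at c1
        rw [e12, em] at c0
        have p1 : 0 < f θ - f t1 := sub_pos.mpr (hf h1)
        have p0 : 0 < f (θ + 1) - f t0 := sub_pos.mpr (hf h0)
        have hJ : (f θ - f t1) + (f (θ + 1) - f t0) ≤ f t2 - f (θ - 1) := by linarith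
        have hJpos : 0 < f t2 - f (θ - 1) := by linarith
        have hJ1 : 0 ≤ f (t2 + 1) - f θ := sub_nonneg.mpr k2
        have k : ((f (θ + 1) - f (t1 + 1)) + (f (θ + 2) - f (t0 + 1))) * (f t2 - f (θ - 1)) ≤
            (f (t2 + 1) - f θ) * (f t2 - f (θ - 1)) := by
          have := mul_le_mul_of_nonneg_left hJ hJ1
          nlinarith
        have := le_of_mul_le_mul_right k hJpos
        linarith
  · -- t2 < θ - 1
    have hlt : f t2 < f (θ - 1) := hf h2
    have hs : f θ + f (θ + 1) < f t0 + f t1 := by linarith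
    rcases le_or_gt (θ + 1) t0 with h0 | h0
    · have k0 : f (θ + 2) ≤ f (t0 + 1) := mono (by linarith)
      linarith
    · -- t0 < θ + 1, so t1 > θ
      have h1 : θ < t1 := by
        by_contra hc'
        push Not at hc'
        have := mono hc'
        have := hf h0
        linarith
      have c1 := hc θ t1 t0 (θ + 1) h1.le h0.le (by linarith) (by linarith)
      rw [e12] at c1
      have p0 : 0 < f (θ + 1) - f t0 := sub_pos.mpr (hf h0)
      have hI : 0 ≤ f (θ + 2) - f (t0 + 1) := sub_nonneg.mpr (mono (by linarith))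
      have hJ : f (θ + 1) - f t0 ≤ f t1 - f θ := by linarith
      have k : (f (θ + 2) - f (t0 + 1)) * (f (θ + 1) - f t0) ≤
          (f (t1 + 1) - f (θ + 1)) * (f (θ + 1) - f t0) := by
        have := mul_le_mul_of_nonneg_left hJ hI
        nlinarith
      have := le_of_mul_le_mul_right k p0
      have := mono h1.le
      linarith

/-- isoperimetric comparison of a general ternary walk with the unit-step walk -/
lemma iso {lam : ℝ} (hl : 0 < lam) : ∀ (L : List ℝ), (∀ b ∈ L, 0 ≤ b ∧ b ≤ 1) → ∀ x θ : ℝ,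
    FF lam L.length θ ≤ HH lam L x → FF lam L.length (θ + 1) ≤ HH lam L (x + 1) := by
  intro L
  induction L with
  | nil =>
    intro _ x θ h
    simp only [List.length_nil, FF, HH] at h ⊢
    have := (lgs_strictMono hl).le_iff_le.mp h
    exact (lgs_strictMono hl).monotone (by linarith)
  | cons b L ih =>
    intro hL x θ h
    have hb := hL b (by simp)
    have ih' := ih (fun c hc => hL c (by simp [hc]))
    simp only [List.length_cons, FF, HH] at h ⊢
    obtain ⟨t0, ht0⟩ := FF_surj hl L.length (HH_pos lam L (x + b)) (HH_lt lam L (x + b))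
    obtain ⟨t1, ht1⟩ := FF_surj hl L.length (HH_pos lam L x) (HH_lt lam L x)
    obtain ⟨t2, ht2⟩ := FF_surj hl L.length (HH_pos lam L (x - b)) (HH_lt lam L (x - b))
    have hm := FF_strictMono hl L.length
    have hH := (HH_strictMono hl L).monotone
    have h21 : t2 ≤ t1 := by
      rw [← hm.le_iff_le, ht1, ht2]
      exact hH (by linarith)
    have h10 : t1 ≤ t0 := by
      rw [← hm.le_iff_le, ht1, ht0]
      exact hH (by linarith)
    have key := three_ineq hm (comp_FF hl L.length) (t0 := t0) (t1 := t1) (t2 := t2) (θ := θ)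
      (A0 := HH lam L (x + 1 + b)) (A1 := HH lam L (x + 1)) (A2 := HH lam L (x + 1 - b))
      h21 h10 (by rw [ht0, ht1, ht2]; linarith)
      (by have := ih' (x + b) t0 ht0.le; rwa [show x + b + 1 = x + 1 + b by ring] at this)
      (ih' x t1 ht1.le)
      (by rw [ht0]; exact hH (by linarith))
      (by have := ih' (x - b) t2 ht2.le; rwa [show x - b + 1 = x + 1 - b by ring] at this)
      (by rw [ht1]; exact hH (by linarith))
    have e1 : θ + 1 - 1 = θ := by ring
    have e2 : θ + 1 + 1 = θ + 2 := by ring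
    rw [e1, e2]
    linarith

/-- the central window is smallest for unit steps -/
lemma window {lam : ℝ} (hl : 0 < lam) (L : List ℝ) (hL : ∀ b ∈ L, 0 ≤ b ∧ b ≤ 1) :
    FF lam L.length (1 / 2) - FF lam L.length (-(1 / 2)) ≤ HH lam L (1 / 2) - HH lam L (-(1 / 2)) := by
  obtain ⟨θ, hθ⟩ := FF_surj hl L.length (HH_pos lam L (-(1 / 2))) (HH_lt lam L (-(1 / 2)))
  have h1 := iso hl L hL (-(1 / 2)) θ hθ.le
  rw [show -(1 / 2) + 1 = (1 / 2 : ℝ) by norm_num] at h1
  have s1 := HH_symm lam L (1 / 2)
  have s2 := FF_symm lam L.length (1 / 2)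
  have hm := FF_strictMono hl L.length
  have hθ2 : θ ≤ -(1 / 2) := by
    by_contra hc
    push Not at hc
    have k1 := hm (show (1 / 2 : ℝ) < θ + 1 by linarith)
    have k2 := hm hc
    linarith
  have k := hm.monotone hθ2
  linarith

end Pool.Agent.Lib.MP_727445_co
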