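import Pool.Agent.Lib.MP_727445_co.Upper

namespace Pool.Agent.Lib.MP_727445_co

open Finset

/-- adding the element `b` keeps all sums with coefficients `0, 1, 2` distinct -/
def okb (S b : ℕ) : Bool :=
  Nat.beq (Nat.land S (Nat.shiftLeft S b)) 0 && Nat.beq (Nat.land S (Nat.shiftLeft S (2 * b))) 0

/-- the new bitmask -/
def extb (S b : ℕ) : ℕ := Nat.lor (Nat.lor S (Nat.shiftLeft S b)) (Nat.shiftLeft S (2 * b))

/-- exhaustive search for `n` further elements below `M` -/
def srch : ℕ → ℕ → ℕ → Bool
  | 0, n, _ => Nat.beq n 0
  | M + 1, n, S =>
    match n with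
    | 0 => true
    | n' + 1 =>
      match S with
      | 0 => true
      | T + 1 => (okb (T + 1) M && srch M n' (extb (T + 1) M)) || srch M (n' + 1) (T + 1)

/-- distinctness of all sums relative to the set of bits of `S` -/
def RelTD (S n : ℕ) (b : ℕ → ℕ) : Prop :=
  ∀ s s' : ℕ, S.testBit s = true → S.testBit s' = true →
    ∀ e e' : ℕ → ℕ, (∀ i, e i ≤ 2) → (∀ i, e' i ≤ 2) →
    s + ∑ i ∈ range n, e i * b i = s' + ∑ i ∈ range n, e' i * b i →
    s = s' ∧ ∀ i < n, e i = e' i

lemma land_eq_zero_of {S c : ℕ} (h : ∀ s, S.testBit s = true → S.testBit (s + c) = true → False) :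
    Nat.beq (Nat.land S (Nat.shiftLeft S c)) 0 = true := by
  have h0 : S &&& (S <<< c) = 0 := by
    apply Nat.eq_of_testBit_eq
    intro i
    rw [Nat.testBit_and, Nat.testBit_shiftLeft, Nat.zero_testBit]
    by_contra hc
    simp only [Bool.not_eq_false, Bool.and_eq_true, decide_eq_true_eq] at hc
    obtain ⟨h1, h2, h3⟩ := hc
    exact h (i - c) h3 (by rwa [Nat.sub_add_cancel h2])
  rw [show Nat.land S (Nat.shiftLeft S c) = 0 from h0]
  rfl

lemma testBit_extb {S b t : ℕ} (h : (extb S b).testBit t = true) :
    ∃ s c : ℕ, S.testBit s = true ∧ c ≤ 2 ∧ t = s + c * b := by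
  change ((S ||| (S <<< b)) ||| (S <<< (2 * b))).testBit t = true at h
  rw [Nat.testBit_or, Nat.testBit_or, Nat.testBit_shiftLeft, Nat.testBit_shiftLeft] at h
  simp only [Bool.or_eq_true, Bool.and_eq_true, decide_eq_true_eq] at h
  rcases h with (h | ⟨h1, h2⟩) | ⟨h1, h2⟩
  · exact ⟨t, 0, h, by norm_num, by omega⟩
  · exact ⟨t - b, 1, h2, by norm_num, by omega⟩
  · exact ⟨t - 2 * b, 2, h2, by norm_num, by omega⟩

lemma srch_complete : ∀ (M n S : ℕ) (b : ℕ → ℕ), (∀ i < n, b i < M) →
    (∀ i j, i < j → j < n → b i < b j) → RelTD S n b → srch M n S = true := by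
  intro M
  induction M with
  | zero =>
    intro n S b hb _ _
    match n with
    | 0 => rfl
    | n + 1 => exact absurd (hb 0 (by omega)) (by omega)
  | succ M ih =>
    intro n S b hb hmono hrel
    match n, hb, hmono, hrel with
    | 0, _, _, _ => rfl
    | n + 1, hb, hmono, hrel =>
      match S, hrel with
      | 0, _ => rfl
      | T + 1, hrel =>
        simp only [srch, Bool.or_eq_true, Bool.and_eq_true]
        by_cases hM : b n = M
        · left
          have hkey : ∀ c : ℕ, 1 ≤ c → c ≤ 2 → ∀ s, (T + 1).testBit s = true →
              (T + 1).testBit (s + c * M) = true → False := by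
            intro c hc1 hc2 s hs hs'
            have := hrel s (s + c * M) hs hs' (fun i => if i = n then c else 0) (fun _ => 0)
              (by intro i; split_ifs <;> omega) (by intro i; norm_num) (by
                simp [hM])
            have h2 := this.2 n (by omega)
            simp at h2
            omega
          constructor
          · unfold okb
            rw [Bool.and_eq_true]
            constructor
            · apply land_eq_zero_of
              intro s hs hs'
              exact hkey 1 le_rfl (by norm_num) s hs (by simpa using hs')
            · apply land_eq_zero_of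
              intro s hs hs'
              exact hkey 2 (by norm_num) le_rfl s hs hs'
          · apply ih n _ b
            · intro i hi
              have := hmono i n hi (by omega)
              omega
            · intro i j hij hj
              exact hmono i j hij (by omega)
            · intro t t' ht ht' e e' he he' hsum
              obtain ⟨s, c, hs, hc, rfl⟩ := testBit_extb ht
              obtain ⟨s', c', hs', hc', rfl⟩ := testBit_extb ht'
              have hsub : ∀ (d : ℕ) (f : ℕ → ℕ), ∑ i ∈ range n, (if i = n then d else f i) * b i
                  = ∑ i ∈ range n, f i * b i := by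
                intro d f
                apply Finset.sum_congr rfl
                intro i hi
                rw [mem_range] at hi
                rw [if_neg (by omega)]
              have key := hrel s s' hs hs' (fun i => if i = n then c else e i)
                (fun i => if i = n then c' else e' i)
                (by intro i; split_ifs; exacts [hc, he i])
                (by intro i; split_ifs; exacts [hc', he' i])
                (by
                  rw [Finset.sum_range_succ, Finset.sum_range_succ, hsub, hsub]
                  simp only [if_true, hM]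
                  omega)
              obtain ⟨k1, k2⟩ := key
              have hcc := k2 n (by omega)
              simp only [if_true] at hcc
              refine ⟨by rw [k1, hcc], ?_⟩
              intro i hi
              have := k2 i (by omega)
              rwa [if_neg (by omega), if_neg (by omega)] at this
        · right
          apply ih (n + 1) _ b
          · intro i hi
            have h1 := hb n (by omega)
            rcases Nat.lt_or_ge i n with h2 | h2
            · have := hmono i n h2 (by omega)
              omega
            · have : i = n := by omega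
              subst this
              omega
          · exact hmono
          · exact hrel

lemma RelTD_of_TD {k : ℕ} {b : ℕ → ℕ} (h : TD k b) : RelTD 1 k (fun i => b (i + 1)) := by
  intro s s' hs hs' e e' he he' hsum
  have z : ∀ t : ℕ, Nat.testBit 1 t = true → t = 0 := by
    intro t ht
    match t with
    | 0 => rfl
    | t + 1 => rw [Nat.testBit_succ] at ht; simp at ht
  have hs0 := z s hs
  have hs0' := z s' hs'
  refine ⟨by rw [hs0, hs0'], ?_⟩
  have key := h (fun i => (e (i - 1) : ℤ) - (e' (i - 1) : ℤ)) (by
    intro i _
    have h1 := he (i - 1)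
    have h2 := he' (i - 1)
    rw [abs_le]
    omega) (by
    rw [sum_Icc_range]
    simp only [Nat.add_sub_cancel, sub_mul]
    rw [Finset.sum_sub_distrib]
    have : (s : ℤ) + ∑ i ∈ range k, (e i : ℤ) * (b (i + 1) : ℤ)
        = (s' : ℤ) + ∑ i ∈ range k, (e' i : ℤ) * (b (i + 1) : ℤ) := by
      exact_mod_cast hsum
    rw [hs0, hs0'] at this
    omega)
  intro i hi
  have := key (i + 1) (by rw [mem_Icc]; omega)
  simp only [Nat.add_sub_cancel] at this
  omega

lemma g_lower {k m : ℕ} (hk : 1 ≤ k) (h : srch (m + 1) k 1 = false) : m < g 3 k := by
  obtain ⟨b, hb, hbk⟩ := g_attained hk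
  rw [admissible_iff] at hb
  obtain ⟨hpos, hmono, htd⟩ := hb
  by_contra hc
  have := srch_complete (m + 1) k 1 (fun i => b (i + 1)) (by
    intro i hi
    rcases Nat.lt_or_ge (i + 1) k with h2 | h2
    · have := hmono (i + 1) (by rw [mem_Icc]; omega) k (by rw [mem_Icc]; omega) h2
      omega
    · have : i + 1 = k := by omega
      rw [this]
      omega) (by
    intro i j hij hj
    exact hmono (i + 1) (by rw [mem_Icc]; omega) (j + 1) (by rw [mem_Icc]; omega) (by omega))
    (RelTD_of_TD htd)
  rw [this] at h
  exact absurd h (by simp)

lemma adm_of_list (L : List ℕ) (h : chk L 1 = true)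
    (hmono : L.Pairwise (· < ·)) (hpos : ∀ x ∈ L, 0 < x) :
    Admissible 3 L.length (fun i => L.getD (i - 1) 0) := by
  rw [admissible_iff]
  refine ⟨?_, ?_, TD_of_chk L h⟩
  · intro i hi
    rw [mem_Icc] at hi
    have hi' : i - 1 < L.length := by omega
    rw [List.getD_eq_getElem _ _ hi']
    exact hpos _ (List.getElem_mem hi')
  · intro i hi j hj hij
    rw [mem_Icc] at hi hj
    have hi' : i - 1 < L.length := by omega
    have hj' : j - 1 < L.length := by omega
    rw [List.getD_eq_getElem _ _ hi', List.getD_eq_getElem _ _ hj']
    exact List.pairwise_iff_getElem.mp hmono (i - 1) (j - 1) hi' hj' (by omega)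

lemma g_one : g 3 1 = 1 := by
  apply le_antisymm
  · exact g_le adm_one
  · exact g_lower (m := 0) le_rfl (by decide +kernel)

lemma g_two : g 3 2 = 3 := by
  apply le_antisymm
  · exact g_le (adm_of_list [1, 3] (by decide +kernel) (by decide) (by decide))
  · exact g_lower (m := 2) (by norm_num) (by decide +kernel)

lemma g_three : g 3 3 = 8 := by
  apply le_antisymm
  · exact g_le (adm_of_list [5, 7, 8] (by decide +kernel) (by decide) (by decide))
  · exact g_lower (m := 7) (by norm_num) (by decide +kernel)

lemma g_four : g 3 4 = 22 := by
  apply le_antisymm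
  · exact g_le (adm_of_list [14, 19, 21, 22] (by decide +kernel) (by decide) (by decide))
  · exact g_lower (m := 21) (by norm_num) (by decide +kernel)

end Pool.Agent.Lib.MP_727445_co
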