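import Pool.Agent.Lib.MP_727445_co.ExactD

namespace Pool.Agent.Lib.MP_727445_co

set_option maxRecDepth 100000
set_option exponentiation.threshold 600

lemma top_lt : ∀ M < 51, top 4 M = [] := by decide +kernel

lemma top_51 : top 4 51 = [] := by decide +kernel

lemma top_52 : top 4 52 = [] := by decide +kernel

lemma top_53 : top 4 53 = [] := by decide +kernel

lemma top_54 : top 4 54 = [] := by decide +kernel

end Pool.Agent.Lib.MP_727445_co
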