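import Pool.Agent.Lib.MP_727445_co.Equiv

namespace Pool.Agent.Lib.MP_727445_co

open Finset

/-- the tripled sequence `1, 3 b 1, ..., 3 b k` -/
def triple (b : ℕ → ℕ) : ℕ → ℕ := fun i => if i = 1 then 1 else 3 * b (i - 1)

lemma sum_Icc_succ_shift (k : ℕ) (f : ℕ → ℤ) :
    ∑ i ∈ Icc 1 (k + 1), f i = f 1 + ∑ i ∈ Icc 1 k, f (i + 1) := by
  rw [← Finset.add_sum_erase (Icc 1 (k + 1)) f (a := 1) (by simp)]
  congr 1
  symm
  apply Finset.sum_bij (fun i _ => i + 1)
  · intro i hi
    rw [mem_Icc] at hi
    rw [mem_erase, mem_Icc]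
    omega
  · intro a _ b _ h
    simpa using h
  · intro j hj
    rw [mem_erase, mem_Icc] at hj
    exact ⟨j - 1, by rw [mem_Icc]; omega, by omega⟩
  · intro i _; rfl

lemma triple_adm {k : ℕ} {b : ℕ → ℕ} (h : Admissible 3 k b) : Admissible 3 (k + 1) (triple b) := by
  rw [admissible_iff] at h ⊢
  obtain ⟨hpos, hmono, htd⟩ := h
  refine ⟨?_, ?_, ?_⟩
  · intro i hi
    rw [mem_Icc] at hi
    unfold triple
    split_ifs with h1
    · norm_num
    · have := hpos (i - 1) (by rw [mem_Icc]; omega)
      omega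
  · intro i hi j hj hij
    rw [mem_Icc] at hi hj
    unfold triple
    have hj1 : j ≠ 1 := by omega
    rw [if_neg hj1]
    have hbj := hpos (j - 1) (by rw [mem_Icc]; omega)
    split_ifs with h1
    · omega
    · have := hmono (i - 1) (by rw [mem_Icc]; omega) (j - 1) (by rw [mem_Icc]; omega) (by omega)
      omega
  · intro e he hs
    rw [sum_Icc_succ_shift] at hs
    have hsh : ∀ i ∈ Icc 1 k, e (i + 1) * (triple b (i + 1) : ℤ) = 3 * (e (i + 1) * (b i : ℤ)) := by
      intro i hi
      rw [mem_Icc] at hi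
      unfold triple
      rw [if_neg (by omega)]
      simp only [Nat.add_sub_cancel]
      push_cast
      ring
    rw [Finset.sum_congr rfl hsh, ← Finset.mul_sum] at hs
    have ht1 : (triple b 1 : ℤ) = 1 := by unfold triple; simp
    rw [ht1, mul_one] at hs
    have h1 := he 1 (by rw [mem_Icc]; omega)
    rw [abs_le] at h1
    have h0 : e 1 = 0 := by omega
    have hs' : ∑ i ∈ Icc 1 k, e (i + 1) * (b i : ℤ) = 0 := by omega
    have h2 := htd (fun i => e (i + 1)) (by
      intro i hi
      rw [mem_Icc] at hi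
      exact he (i + 1) (by rw [mem_Icc]; omega)) hs'
    intro i hi
    rw [mem_Icc] at hi
    by_cases hi1 : i = 1
    · rw [hi1]; exact h0
    · have := h2 (i - 1) (by rw [mem_Icc]; omega)
      rwa [Nat.sub_add_cancel (by omega)] at this

lemma triple_last {k : ℕ} (hk : 1 ≤ k) (b : ℕ → ℕ) : triple b (k + 1) = 3 * b k := by
  unfold triple
  rw [if_neg (by omega)]
  simp

lemma adm_one : Admissible 3 1 (fun _ => 1) := by
  rw [admissible_iff]
  refine ⟨by simp, ?_, ?_⟩
  · intro i hi j hj hij
    simp at hi hj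
    omega
  · intro e _ hs i hi
    simp at hi hs
    rw [hi]; exact hs

lemma exists_adm {k : ℕ} (hk : 1 ≤ k) : ∃ b, Admissible 3 k b := by
  induction k, hk using Nat.le_induction with
  | base => exact ⟨_, adm_one⟩
  | succ n hn ih =>
    obtain ⟨b, hb⟩ := ih
    exact ⟨triple b, triple_adm hb⟩

lemma g_attained {k : ℕ} (hk : 1 ≤ k) : ∃ b, Admissible 3 k b ∧ b k = g 3 k := by
  obtain ⟨b, hb⟩ := exists_adm hk
  have := Nat.sInf_mem (s := {m : ℕ | ∃ b : ℕ → ℕ, Admissible 3 k b ∧ b k = m}) ⟨b k, b, hb, rfl⟩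
  exact this

lemma g_le {k : ℕ} {b : ℕ → ℕ} (hb : Admissible 3 k b) : g 3 k ≤ b k :=
  Nat.sInf_le ⟨b, hb, rfl⟩

lemma g_succ_le {k : ℕ} (hk : 1 ≤ k) : g 3 (k + 1) ≤ 3 * g 3 k := by
  obtain ⟨b, hb, hbk⟩ := g_attained hk
  rw [← hbk, ← triple_last hk]
  exact g_le (triple_adm hb)

lemma g_add_le {k : ℕ} (hk : 1 ≤ k) (m : ℕ) : g 3 (k + m) ≤ g 3 k * 3 ^ m := by
  induction m with
  | zero => simp
  | succ m ih =>
    calc g 3 (k + (m + 1)) = g 3 ((k + m) + 1) := by ring_nf
      _ ≤ 3 * g 3 (k + m) := g_succ_le (by omega)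
      _ ≤ 3 * (g 3 k * 3 ^ m) := by omega
      _ = g 3 k * 3 ^ (m + 1) := by ring

/-- the bitmask test: all sums with coefficients `0, 1, 2` are distinct -/
def chk : List ℕ → ℕ → Bool
  | [], _ => true
  | b :: L, S =>
    match S with
    | 0 => false
    | T + 1 =>
      Nat.beq (Nat.land (T + 1) (Nat.shiftLeft (T + 1) b)) 0 &&
      (Nat.beq (Nat.land (T + 1) (Nat.shiftLeft (T + 1) (2 * b))) 0 &&
      chk L (Nat.lor (Nat.lor (T + 1) (Nat.shiftLeft (T + 1) b)) (Nat.shiftLeft (T + 1) (2 * b))))

lemma land_zero {S c : ℕ} (h : Nat.beq (Nat.land S (Nat.shiftLeft S c)) 0 = true) {s : ℕ}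
    (h1 : S.testBit s = true) (h2 : S.testBit (s + c) = true) : False := by
  have h0 : S &&& (S <<< c) = 0 := Nat.eq_of_beq_eq_true h
  have h3 : (S &&& (S <<< c)).testBit (s + c) = true := by
    rw [Nat.testBit_and, Nat.testBit_shiftLeft, h2]
    simp [h1]
  rw [h0] at h3
  simp at h3

lemma chk_sound : ∀ (L : List ℕ) (S : ℕ), chk L S = true →
    ∀ s s' : ℕ, S.testBit s = true → S.testBit s' = true →
    ∀ e e' : ℕ → ℕ, (∀ i, e i ≤ 2) → (∀ i, e' i ≤ 2) →
    s + ∑ i ∈ range L.length, e i * L.getD i 0 = s' + ∑ i ∈ range L.length, e' i * L.getD i 0 →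
    s = s' ∧ ∀ i < L.length, e i = e' i := by
  intro L
  induction L with
  | nil =>
    intro S _ s s' _ _ e e' _ _ h
    simp at h
    exact ⟨h, by simp⟩
  | cons b L ih =>
    intro S hchk s s' hs hs' e e' he he' h
    match S, hchk with
    | 0, hchk => simp [chk] at hchk
    | T + 1, hchk =>
      simp only [chk, Bool.and_eq_true] at hchk
      obtain ⟨h1, h2, h3⟩ := hchk
      have hbit : ∀ (t : ℕ), (T + 1).testBit t = true → ∀ c : ℕ, c ≤ 2 →
          (Nat.lor (Nat.lor (T + 1) (Nat.shiftLeft (T + 1) b)) (Nat.shiftLeft (T + 1) (2 * b))).testBit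
            (t + c * b) = true := by
        intro t ht c hc
        change (((T + 1) ||| ((T + 1) <<< b)) ||| ((T + 1) <<< (2 * b))).testBit (t + c * b) = true
        rw [Nat.testBit_or, Nat.testBit_or, Nat.testBit_shiftLeft, Nat.testBit_shiftLeft]
        interval_cases c
        · simp [ht]
        · simp [ht]
        · simp [ht]
      rw [List.length_cons, Finset.sum_range_succ', Finset.sum_range_succ'] at h
      simp only [List.getD_cons_succ, List.getD_cons_zero] at h
      have key := ih _ h3 (s + e 0 * b) (s' + e' 0 * b) (hbit s hs _ (he 0)) (hbit s' hs' _ (he' 0))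
        (fun i => e (i + 1)) (fun i => e' (i + 1)) (fun i => he _) (fun i => he' _) (by
          omega)
      obtain ⟨k1, k2⟩ := key
      have a0 := he 0
      have a0' := he' 0
      have hEq : e 0 = e' 0 ∧ s = s' := by
        generalize e 0 = x at k1 a0
        generalize e' 0 = y at k1 a0'
        interval_cases x <;> interval_cases y
        · exact ⟨rfl, by omega⟩
        · exfalso; exact land_zero h1 (s := s') hs' (by rw [show s' + b = s by omega]; exact hs)
        · exfalso; exact land_zero h2 (s := s') hs' (by rw [show s' + 2 * b = s by omega]; exact hs)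
        · exfalso; exact land_zero h1 (s := s) hs (by rw [show s + b = s' by omega]; exact hs')
        · exact ⟨rfl, by omega⟩
        · exfalso; exact land_zero h1 (s := s') hs' (by rw [show s' + b = s by omega]; exact hs)
        · exfalso; exact land_zero h2 (s := s) hs (by rw [show s + 2 * b = s' by omega]; exact hs')
        · exfalso; exact land_zero h1 (s := s) hs (by rw [show s + b = s' by omega]; exact hs')
        · exact ⟨rfl, by omega⟩
      refine ⟨hEq.2, ?_⟩
      intro i hi
      match i with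
      | 0 => exact hEq.1
      | i + 1 => exact k2 i (by simpa using hi)

lemma sum_Icc_range (k : ℕ) (f : ℕ → ℤ) : ∑ i ∈ Icc 1 k, f i = ∑ i ∈ range k, f (i + 1) := by
  induction k with
  | zero => simp
  | succ n ih => rw [Finset.sum_Icc_succ_top (by omega), Finset.sum_range_succ, ih]

lemma TD_of_chk (L : List ℕ) (h : chk L 1 = true) : TD L.length (fun i => L.getD (i - 1) 0) := by
  intro e he hs
  rw [sum_Icc_range] at hs
  simp only [Nat.add_sub_cancel] at hs
  have hrange : ∀ i < L.length, |e (i + 1)| ≤ 2 := fun i hi => he (i + 1) (by rw [mem_Icc]; omega)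
  have key := chk_sound L 1 h 0 0 (by simp) (by simp)
    (fun i => if i < L.length then (e (i + 1)).toNat else 0)
    (fun i => if i < L.length then (-e (i + 1)).toNat else 0)
    (by
      intro i
      split_ifs with hi
      · have := hrange i hi; rw [abs_le] at this; omega
      · norm_num)
    (by
      intro i
      split_ifs with hi
      · have := hrange i hi; rw [abs_le] at this; omega
      · norm_num)
    (by
      have e1 : ∀ x : ℤ, x = (x.toNat : ℤ) - ((-x).toNat : ℤ) := by intro x; omega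
      have e2 : ∑ i ∈ range L.length, e (i + 1) * ((L.getD i 0 : ℕ) : ℤ)
          = ((∑ i ∈ range L.length, (if i < L.length then (e (i + 1)).toNat else 0) * L.getD i 0 : ℕ) : ℤ)
          - ((∑ i ∈ range L.length, (if i < L.length then (-e (i + 1)).toNat else 0) * L.getD i 0 : ℕ) : ℤ) := by
        push_cast
        rw [← Finset.sum_sub_distrib]
        apply Finset.sum_congr rfl
        intro i hi
        rw [mem_range] at hi
        rw [if_pos hi, if_pos hi, ← sub_mul]
        congr 1
        exact e1 _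
      rw [e2] at hs
      omega)
  intro i hi
  rw [mem_Icc] at hi
  have h2 := key.2 (i - 1) (by omega)
  rw [if_pos (by omega), if_pos (by omega), Nat.sub_add_cancel (by omega)] at h2
  omega

end Pool.Agent.Lib.MP_727445_co
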